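import Mathlib

set_option autoImplicit false
set_option linter.unusedSectionVars false

/-! Hermitian Gauss sums over a finite elementary abelian 2-group: not all covariances vanish. -/

namespace Pool.Agent.H953R3.Q2

open Finset

/-- the sign character of `ZMod 2` -/
def sg (x : ZMod 2) : ℤ := if x = 0 then 1 else -1

theorem sg_add : ∀ x y : ZMod 2, sg (x + y) = sg x * sg y := by decide

theorem sg_zero : sg 0 = 1 := by decide

theorem sq_eq : ∀ s : ZMod 2, s * s = s := by decide

theorem eq_one : ∀ s : ZMod 2, s ≠ 0 → s = 1 := by decide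

theorem sg_sq : ∀ x : ZMod 2, sg x * sg x = 1 := by decide

/-- indicator of `(0, 0)` -/
def ind (x y : ZMod 2) : ℤ := if x = 0 ∧ y = 0 then 1 else 0

theorem four_ind : ∀ x y : ZMod 2, 4 * ind x y = ∑ s : ZMod 2, ∑ t : ZMod 2, sg (s * x + t * y) := by
  decide

theorem sg_eq_neg : ∀ x : ZMod 2, x ≠ 0 → sg x = -1 := by decide

variable {C : Type} [AddCommGroup C] [Fintype C]

/-- the quadratic form on pairs -/
def hh (B : C →+ C →+ ZMod 2) (x : C × C) : ZMod 2 := B x.1 x.1 + B x.2 x.2 + B x.1 x.2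

/-- the Gauss sum -/
def ZZ (B : C →+ C →+ ZMod 2) : ℤ := ∑ x : C × C, sg (hh B x)

def V1 (B : C →+ C →+ ZMod 2) (φ : C →+ ZMod 2) : ℤ :=
  ∑ x : C × C, sg (hh B x) * ind (φ x.1) (φ x.2)

def V2 (B : C →+ C →+ ZMod 2) (φ ψ : C →+ ZMod 2) : ℤ :=
  ∑ x : C × C, sg (hh B x) * (ind (φ x.1) (φ x.2) * ind (ψ x.1) (ψ x.2))

theorem two_eq (x : ZMod 2) : x + x = 0 := CharTwo.add_self_eq_zero x

theorem diag_add (B : C →+ C →+ ZMod 2) (hB : ∀ a b, B a b = B b a) (a c : C) :
    B (a + c) (a + c) = B a a + B c c := by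
  simp only [map_add, AddMonoidHom.add_apply]
  rw [hB c a]
  have := two_eq (B a c)
  linear_combination this

theorem hh_add (B : C →+ C →+ ZMod 2) (hB : ∀ a b, B a b = B b a) (x y : C × C) :
    hh B (x + y) = hh B x + hh B y + (B x.1 y.2 + B x.2 y.1) := by
  unfold hh
  rw [Prod.fst_add, Prod.snd_add, diag_add B hB, diag_add B hB]
  simp only [map_add, AddMonoidHom.add_apply]
  rw [hB y.1 x.2]
  ring

/-- the Fourier transform of the Gauss function -/
theorem fourier (B : C →+ C →+ ZMod 2) (hB : ∀ a b, B a b = B b a) (y : C × C) :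
    ∑ x : C × C, sg (hh B x) * sg (B x.1 y.2 + B x.2 y.1) = ZZ B * sg (hh B y) := by
  have h1 : ZZ B = ∑ x : C × C, sg (hh B (x + y)) := by
    unfold ZZ
    exact (Equiv.sum_comp (Equiv.addRight y) (fun x => sg (hh B x))).symm
  rw [h1, Finset.sum_mul]
  refine Finset.sum_congr rfl fun x _ => ?_
  rw [hh_add B hB, sg_add (hh B x + hh B y) _, sg_add (hh B x) (hh B y)]
  linear_combination (-(sg (hh B x) * sg (B x.1 y.2 + B x.2 y.1))) * sg_sq (hh B y)

/-- sums of characters vanish -/
theorem sum_char (φ : C →+ ZMod 2) (a : C) (ha : φ a ≠ 0) : ∑ x : C, sg (φ x) = 0 := by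
  have h1 : ∑ x : C, sg (φ x) = ∑ x : C, sg (φ (x + a)) :=
    (Equiv.sum_comp (Equiv.addRight a) (fun x => sg (φ x))).symm
  have h2 : ∑ x : C, sg (φ (x + a)) = -∑ x : C, sg (φ x) := by
    rw [← Finset.sum_neg_distrib]
    refine Finset.sum_congr rfl fun x _ => ?_
    rw [map_add, sg_add, sg_eq_neg _ ha]
    ring
  linarith

theorem sum_char_nonneg (φ : C →+ ZMod 2) : 0 ≤ ∑ x : C, sg (φ x) := by
  by_cases h : ∃ a, φ a ≠ 0
  · obtain ⟨a, ha⟩ := h
    rw [sum_char φ a ha]
  · push Not at h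
    refine Finset.sum_nonneg fun x _ => ?_
    rw [h x, sg_zero]
    norm_num

theorem ZZ_ne_zero (B : C →+ C →+ ZMod 2) (hB : ∀ a b, B a b = B b a) : ZZ B ≠ 0 := by
  have h1 : ZZ B * ZZ B = ∑ y : C × C, sg (hh B y) * 
      ((∑ a : C, sg (B y.2 a)) * (∑ b : C, sg (B y.1 b))) := by
    have e1 : ZZ B * ZZ B = ∑ x : C × C, ∑ y : C × C, sg (hh B x) * sg (hh B (x + y)) := by
      have e0 : ZZ B * ZZ B = ∑ x : C × C, sg (hh B x) * ZZ B := Finset.sum_mul _ _ _
      rw [e0]
      refine Finset.sum_congr rfl fun x _ => ?_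
      rw [← Finset.mul_sum]
      congr 1
      exact (Equiv.sum_comp (Equiv.addLeft x) (fun x => sg (hh B x))).symm
    rw [e1, Finset.sum_comm]
    refine Finset.sum_congr rfl fun y _ => ?_
    rw [Finset.sum_mul_sum, Fintype.sum_prod_type, Finset.mul_sum]
    refine Finset.sum_congr rfl fun a _ => ?_
    rw [Finset.mul_sum]
    refine Finset.sum_congr rfl fun b _ => ?_
    rw [hh_add B hB, sg_add, sg_add, sg_add, hB y.2 a, hB y.1 b]
    linear_combination (sg (hh B y) * (sg (B a y.2) * sg (B b y.1))) * sg_sq (hh B (a, b))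
  have h2 : 0 < ∑ y : C × C, sg (hh B y) * 
      ((∑ a : C, sg (B y.2 a)) * (∑ b : C, sg (B y.1 b))) := by
    refine Finset.sum_pos' ?_ ⟨0, Finset.mem_univ _, ?_⟩
    · intro y _
      have n1 := sum_char_nonneg (B y.2)
      have n2 := sum_char_nonneg (B y.1)
      by_cases c1 : ∃ a, B y.2 a ≠ 0
      · obtain ⟨a, ha⟩ := c1
        rw [sum_char _ a ha]; simp
      by_cases c2 : ∃ a, B y.1 a ≠ 0
      · obtain ⟨a, ha⟩ := c2
        rw [sum_char _ a ha]; simp
      push Not at c1 c2
      have : hh B y = 0 := by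
        unfold hh
        rw [c1, c2, c2]; ring
      rw [this, sg_zero, one_mul]
      exact mul_nonneg n1 n2
    · have : hh B (0 : C × C) = 0 := by simp [hh]
      rw [this, sg_zero, one_mul]
      simp only [Prod.snd_zero, Prod.fst_zero, map_zero, AddMonoidHom.zero_apply, sg_zero,
        Finset.sum_const, nsmul_eq_mul, mul_one]
      have : (0 : ℤ) < (Finset.univ : Finset C).card := by
        exact_mod_cast Finset.card_pos.2 ⟨0, Finset.mem_univ _⟩
      positivity
  intro h
  rw [h, mul_zero] at h1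
  omega

/-- a functional which vanishes on the radical is represented -/
theorem solve (B : C →+ C →+ ZMod 2) (hB : ∀ a b, B a b = B b a) (φ : C →+ ZMod 2)
    (h : ∀ r, (∀ b, B r b = 0) → φ r = 0) : ∃ u, ∀ b, B u b = φ b := by
  by_contra hcon
  push Not at hcon
  have h1 : ∑ u : C, ∑ b : C, sg (B u b + φ b) = 0 := by
    refine Finset.sum_eq_zero fun u _ => ?_
    obtain ⟨b, hb⟩ := hcon u
    have := sum_char (B u + φ) b (by
      rw [AddMonoidHom.add_apply]
      intro h0
      apply hb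
      have := two_eq (φ b)
      linear_combination h0 - this)
    simpa using this
  rw [Finset.sum_comm] at h1
  have h2 : 0 < ∑ b : C, ∑ u : C, sg (B u b + φ b) := by
    have e : ∀ b : C, ∑ u : C, sg (B u b + φ b) = sg (φ b) * ∑ u : C, sg (B b u) := by
      intro b
      rw [Finset.mul_sum]
      refine Finset.sum_congr rfl fun u _ => ?_
      rw [sg_add, hB u b, mul_comm]
    refine Finset.sum_pos' ?_ ⟨0, Finset.mem_univ _, ?_⟩
    · intro b _
      rw [e]
      by_cases c1 : ∃ a, B b a ≠ 0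
      · obtain ⟨a, ha⟩ := c1
        rw [sum_char _ a ha]; simp
      push Not at c1
      rw [h b c1, sg_zero, one_mul]
      exact sum_char_nonneg _
    · rw [e]
      simp only [map_zero, AddMonoidHom.zero_apply, sg_zero, one_mul, Finset.sum_const, nsmul_eq_mul,
        mul_one]
      exact_mod_cast Finset.card_pos.2 ⟨0, Finset.mem_univ _⟩
  omega

theorem four_V1 (B : C →+ C →+ ZMod 2) (φ : C →+ ZMod 2) :
    4 * V1 B φ = ∑ s : ZMod 2, ∑ t : ZMod 2, ∑ x : C × C, sg (hh B x) * sg (s * φ x.1 + t * φ x.2) := by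
  unfold V1
  rw [Finset.mul_sum]
  have : ∀ x : C × C, 4 * (sg (hh B x) * ind (φ x.1) (φ x.2)) = 
      ∑ s : ZMod 2, ∑ t : ZMod 2, sg (hh B x) * sg (s * φ x.1 + t * φ x.2) := by
    intro x
    have h := four_ind (φ x.1) (φ x.2)
    calc 4 * (sg (hh B x) * ind (φ x.1) (φ x.2)) = sg (hh B x) * (4 * ind (φ x.1) (φ x.2)) := by ring
      _ = _ := by
        rw [h, Finset.mul_sum]
        refine Finset.sum_congr rfl fun s _ => ?_
        rw [Finset.mul_sum]
  simp only [this]
  rw [Finset.sum_comm]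
  refine Finset.sum_congr rfl fun s _ => ?_
  rw [Finset.sum_comm]

theorem sixteen_V2 (B : C →+ C →+ ZMod 2) (φ ψ : C →+ ZMod 2) :
    16 * V2 B φ ψ = ∑ s : ZMod 2, ∑ t : ZMod 2, ∑ s' : ZMod 2, ∑ t' : ZMod 2, 
      ∑ x : C × C, sg (hh B x) * sg ((s * φ x.1 + t * φ x.2) + (s' * ψ x.1 + t' * ψ x.2)) := by
  unfold V2
  rw [Finset.mul_sum]
  have : ∀ x : C × C, 16 * (sg (hh B x) * (ind (φ x.1) (φ x.2) * ind (ψ x.1) (ψ x.2))) = 
      ∑ s : ZMod 2, ∑ t : ZMod 2, ∑ s' : ZMod 2, ∑ t' : ZMod 2, 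
        sg (hh B x) * sg ((s * φ x.1 + t * φ x.2) + (s' * ψ x.1 + t' * ψ x.2)) := by
    intro x
    have h := four_ind (φ x.1) (φ x.2)
    have h' := four_ind (ψ x.1) (ψ x.2)
    calc 16 * (sg (hh B x) * (ind (φ x.1) (φ x.2) * ind (ψ x.1) (ψ x.2))) = 
        sg (hh B x) * ((4 * ind (φ x.1) (φ x.2)) * (4 * ind (ψ x.1) (ψ x.2))) := by ring
      _ = _ := by
        rw [h, h', Finset.sum_mul, Finset.mul_sum]
        refine Finset.sum_congr rfl fun s _ => ?_
        rw [Finset.sum_mul, Finset.mul_sum]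
        refine Finset.sum_congr rfl fun t _ => ?_
        rw [Finset.mul_sum, Finset.mul_sum]
        refine Finset.sum_congr rfl fun s' _ => ?_
        rw [Finset.mul_sum, Finset.mul_sum]
        refine Finset.sum_congr rfl fun t' _ => ?_
        rw [sg_add (s * φ x.1 + t * φ x.2) (s' * ψ x.1 + t' * ψ x.2)]
  simp only [this]
  rw [Finset.sum_comm]
  refine Finset.sum_congr rfl fun s _ => ?_
  rw [Finset.sum_comm]
  refine Finset.sum_congr rfl fun t _ => ?_
  rw [Finset.sum_comm]
  refine Finset.sum_congr rfl fun s' _ => ?_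
  rw [Finset.sum_comm]

/-- scalar multiplication by elements of `ZMod 2` -/
def sm (s : ZMod 2) (u : C) : C := if s = 0 then 0 else u

theorem B_sm (B : C →+ C →+ ZMod 2) (s : ZMod 2) (a u : C) : B a (sm s u) = s * B a u := by
  unfold sm
  by_cases h : s = 0
  · simp [h]
  · have : s = 1 := by
      revert s; decide
    simp [this]

theorem sm_B (B : C →+ C →+ ZMod 2) (s : ZMod 2) (a u : C) : B (sm s u) a = s * B u a := by
  unfold sm
  by_cases h : s = 0
  · simp [h]
  · have : s = 1 := by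
      revert s; decide
    simp [this]

/-- a nontrivial character sum which vanishes because of an element of the radical -/
theorem shift_zero (B : C →+ C →+ ZMod 2) (hB : ∀ a b, B a b = B b a) (φ : C →+ ZMod 2) (r : C)
    (hr : ∀ b, B r b = 0) (hφ : φ r ≠ 0) (s t : ZMod 2) (hst : s ≠ 0 ∨ t ≠ 0) :
    ∑ x : C × C, sg (hh B x) * sg (s * φ x.1 + t * φ x.2) = 0 := by
  have hφ1 : φ r = 1 := by
    revert hφ; generalize φ r = z; revert z; decide
  -- the shift
  obtain ⟨y, hy, hy2⟩ : ∃ y : C × C, (∀ x : C × C, hh B (x + y) = hh B x) ∧ 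
      s * φ y.1 + t * φ y.2 = 1 := by
    rcases hst with h | h
    · refine ⟨(r, 0), fun x => ?_, ?_⟩
      · rw [hh_add B hB]
        simp [hh, hr, hB _ r]
      · have : s = 1 := by revert h; revert s; decide
        simp [this, hφ1]
    · refine ⟨(0, r), fun x => ?_, ?_⟩
      · rw [hh_add B hB]
        simp [hh, hr, hB _ r]
      · have : t = 1 := by revert h; revert t; decide
        simp [this, hφ1]
  have h1 : ∑ x : C × C, sg (hh B x) * sg (s * φ x.1 + t * φ x.2) = 
      ∑ x : C × C, sg (hh B (x + y)) * sg (s * φ (x + y).1 + t * φ (x + y).2) :=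
    (Equiv.sum_comp (Equiv.addRight y) (fun x => sg (hh B x) * sg (s * φ x.1 + t * φ x.2))).symm
  have h2 : ∑ x : C × C, sg (hh B (x + y)) * sg (s * φ (x + y).1 + t * φ (x + y).2) = 
      -∑ x : C × C, sg (hh B x) * sg (s * φ x.1 + t * φ x.2) := by
    rw [← Finset.sum_neg_distrib]
    refine Finset.sum_congr rfl fun x _ => ?_
    rw [hy, Prod.fst_add, Prod.snd_add, map_add, map_add]
    have e : s * (φ x.1 + φ y.1) + t * (φ x.2 + φ y.2) = (s * φ x.1 + t * φ x.2) + 1 := by
      rw [← hy2]; ring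
    rw [e, sg_add, sg_eq_neg 1 (by decide)]
    ring
  linarith

/-- not all covariances vanish -/
theorem cov_ne {ι : Type} (B : C →+ C →+ ZMod 2) (hB : ∀ a b, B a b = B b a) 
    (ℓ : ι → C →+ ZMod 2) (hℓ : ∀ x, (∀ e, ℓ e x = 0) → x = 0) (x0 : C) (hx0 : x0 ≠ 0) :
    ∃ e f, ZZ B * V2 B (ℓ e) (ℓ f) ≠ V1 B (ℓ e) * V1 B (ℓ f) := by
  by_contra hcon
  push Not at hcon
  have hZ := ZZ_ne_zero B hB
  have hdiag : ∀ φ : C →+ ZMod 2, V2 B φ φ = V1 B φ := by
    intro φ
    unfold V1 V2
    refine Finset.sum_congr rfl fun x _ => ?_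
    congr 1
    unfold ind
    split_ifs <;> simp
  -- the diagonal
  have key : ∀ e, (∃ u, (∀ b, B u b = ℓ e b) ∧ B u u = 0) ∧ V1 B (ℓ e) = ZZ B := by
    intro e
    have h1 := hcon e e
    rw [hdiag] at h1
    have h4 := four_V1 B (ℓ e)
    by_cases hr : ∃ r, (∀ b, B r b = 0) ∧ ℓ e r ≠ 0
    · exfalso
      obtain ⟨r, hr, hφ⟩ := hr
      have h5 : 4 * V1 B (ℓ e) = ZZ B := by
        rw [h4]
        rw [Finset.sum_eq_single (0 : ZMod 2), Finset.sum_eq_single (0 : ZMod 2)]
        · simp [ZZ, sg_zero]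
        · intro t _ ht
          exact shift_zero B hB (ℓ e) r hr hφ 0 t (Or.inr ht)
        · simp
        · intro s _ hs
          refine Finset.sum_eq_zero fun t _ => ?_
          exact shift_zero B hB (ℓ e) r hr hφ s t (Or.inl hs)
        · simp
      have h6 : V1 B (ℓ e) ≠ 0 := by
        intro h0
        rw [h0] at h5
        apply hZ; linarith
      have h7 : ZZ B = V1 B (ℓ e) := mul_right_cancel₀ h6 h1
      rw [h7] at h5
      apply h6; linarith
    · push Not at hr
      obtain ⟨u, hu⟩ := solve B hB (ℓ e) hr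
      have h5 : 4 * V1 B (ℓ e) = ZZ B * (1 + 3 * sg (B u u)) := by
        rw [h4]
        have : ∀ s t : ZMod 2, ∑ x : C × C, sg (hh B x) * sg (s * ℓ e x.1 + t * ℓ e x.2) = 
            ZZ B * sg ((s + t + t * s) * B u u) := by
          intro s t
          have hf := fourier B hB (sm t u, sm s u)
          have e1 : hh B (sm t u, sm s u) = (s + t + t * s) * B u u := by
            unfold hh
            simp only [B_sm, sm_B]
            have hs : s * s = s := sq_eq s
            have ht : t * t = t := sq_eq t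
            linear_combination (B u u) * hs + (B u u) * ht
          rw [e1] at hf
          rw [← hf]
          refine Finset.sum_congr rfl fun x _ => ?_
          simp only [B_sm]
          rw [hB x.1 u, hB x.2 u, hu, hu]
        simp only [this]
        rw [← Finset.sum_congr rfl (fun s _ => Finset.mul_sum _ _ _), ← Finset.mul_sum]
        congr 1
        generalize B u u = z
        revert z
        decide
      have hg : B u u = 0 ∨ B u u = 1 := by
        generalize B u u = z; revert z; decide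
      rcases hg with hg | hg
      · refine ⟨⟨u, hu, hg⟩, ?_⟩
        rw [hg, sg_zero] at h5
        linarith
      · exfalso
        rw [hg, sg_eq_neg 1 (by decide)] at h5
        have h6 : V1 B (ℓ e) ≠ 0 := by
          intro h0
          rw [h0] at h5
          apply hZ; linarith
        have h7 : ZZ B = V1 B (ℓ e) := mul_right_cancel₀ h6 h1
        rw [h7] at h5
        apply h6; linarith
  choose hk hV using key
  choose u hu hu0 using hk
  -- off the diagonal
  have hoff : ∀ e f, B (u e) (u f) = 0 := by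
    intro e f
    have h1 := hcon e f
    rw [hV, hV] at h1
    have h2 : V2 B (ℓ e) (ℓ f) = ZZ B := mul_left_cancel₀ hZ h1
    have h3 := sixteen_V2 B (ℓ e) (ℓ f)
    have : ∀ s t s' t' : ZMod 2, ∑ x : C × C, 
        sg (hh B x) * sg ((s * ℓ e x.1 + t * ℓ e x.2) + (s' * ℓ f x.1 + t' * ℓ f x.2)) = 
          ZZ B * sg ((t * s' + t' * s) * B (u e) (u f)) := by
      intro s t s' t'
      have hf := fourier B hB (sm t (u e) + sm t' (u f), sm s (u e) + sm s' (u f))
      have e1 : hh B (sm t (u e) + sm t' (u f), sm s (u e) + sm s' (u f)) = 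
          (t * s' + t' * s) * B (u e) (u f) := by
        unfold hh
        simp only [map_add, AddMonoidHom.add_apply, B_sm, sm_B, hu0, hB (u f) (u e)]
        have h2z : (2 : ZMod 2) = 0 := by decide
        linear_combination (t * t' * B (u e) (u f) + s * s' * B (u e) (u f)) * h2z
      rw [e1] at hf
      rw [← hf]
      refine Finset.sum_congr rfl fun x _ => ?_
      simp only [map_add, B_sm]
      rw [hB x.1 (u e), hB x.1 (u f), hB x.2 (u e), hB x.2 (u f), hu, hu, hu, hu]
      congr 2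
      ring
    simp only [this] at h3
    rw [h2] at h3
    have h4 : ZZ B * 16 = ZZ B * ∑ s : ZMod 2, ∑ t : ZMod 2, ∑ s' : ZMod 2, ∑ t' : ZMod 2, 
        sg ((t * s' + t' * s) * B (u e) (u f)) := by
      rw [mul_comm, h3]
      simp only [Finset.mul_sum]
    have h5 := mul_left_cancel₀ hZ h4
    revert h5
    generalize B (u e) (u f) = z
    revert z
    decide
  apply hx0
  apply hℓ
  intro f
  have h1 : u f = 0 := by
    apply hℓ
    intro e
    rw [← hu e]
    exact hoff e f
  rw [← hu f, h1]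
  simp

end Pool.Agent.H953R3.Q2
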