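import Pool.Agent.H891R2.MT.Defs
import Pool.Agent.H953R3.Q2.Cov

set_option autoImplicit false

/-! The cycle space of a graph over the field with two elements and the flow polynomial at `4`. -/

namespace Pool.Agent.H953R3.Q2

open Finset Pool.Agent.H891R2.MT

variable {k : ℕ}

/-- functions on the vertices -/
def InvG (Γ : Ribbon k) : AddSubgroup (Fin k × Bool → ZMod 2) where
  carrier := {f | ∀ d, f (Γ.rot d) = f d}
  zero_mem' := fun d => rfl
  add_mem' := by
    intro f g hf hg d
    simp only [Pi.add_apply]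
    rw [hf d, hg d]
  neg_mem' := by
    intro f hf d
    simp only [Pi.neg_apply]
    rw [hf d]

/-- the functions supported in `R` -/
def SubR (R : Finset (Fin k)) : AddSubgroup (Fin k → ZMod 2) where
  carrier := {x | ∀ e, e ∉ R → x e = 0}
  zero_mem' := fun e _ => rfl
  add_mem' := by
    intro f g hf hg e he
    simp only [Pi.add_apply]
    rw [hf e he, hg e he, add_zero]
  neg_mem' := by
    intro f hf e he
    simp only [Pi.neg_apply]
    rw [hf e he, neg_zero]

/-- the pairing of an edge function with the coboundary of a vertex function -/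
def pr (x : Fin k → ZMod 2) (f : Fin k × Bool → ZMod 2) : ZMod 2 :=
  ∑ e, x e * (f (e, false) + f (e, true))

theorem pr_add_left (x y : Fin k → ZMod 2) (f : Fin k × Bool → ZMod 2) :
    pr (x + y) f = pr x f + pr y f := by
  unfold pr
  rw [← Finset.sum_add_distrib]
  refine Finset.sum_congr rfl fun e _ => ?_
  rw [Pi.add_apply]; ring

theorem pr_add_right (x : Fin k → ZMod 2) (f g : Fin k × Bool → ZMod 2) :
    pr x (f + g) = pr x f + pr x g := by
  unfold pr
  rw [← Finset.sum_add_distrib]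
  refine Finset.sum_congr rfl fun e _ => ?_
  rw [Pi.add_apply, Pi.add_apply]; ring

/-- the cycle space -/
def Cyc (Γ : Ribbon k) : AddSubgroup (Fin k → ZMod 2) where
  carrier := {x | ∀ f ∈ InvG Γ, pr x f = 0}
  zero_mem' := by
    intro f _
    simp [pr]
  add_mem' := by
    intro x y hx hy f hf
    rw [pr_add_left, hx f hf, hy f hf, add_zero]
  neg_mem' := by
    intro x hx f hf
    have h := pr_add_left x (-x) f
    rw [add_neg_cancel, hx f hf, zero_add] at h
    rw [← h]
    simp [pr]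

noncomputable instance (Γ : Ribbon k) : Fintype (Cyc Γ) := Fintype.ofFinite _
noncomputable instance (Γ : Ribbon k) : Fintype (InvG Γ) := Fintype.ofFinite _
noncomputable instance (R : Finset (Fin k)) : Fintype (SubR R) := Fintype.ofFinite _

/-- functions which respect a relation -/
theorem card_resp {X : Type} [Finite X] (r : X → X → Prop) :
    Nat.card {f : X → ZMod 2 // ∀ x y, r x y → f x = f y} = 2 ^ Nat.card (Quot r) := by
  have e : {f : X → ZMod 2 // ∀ x y, r x y → f x = f y} ≃ (Quot r → ZMod 2) :=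
    { toFun := fun f => Quot.lift f.1 f.2
      invFun := fun g => ⟨fun x => g (Quot.mk r x), fun x y h => congrArg g (Quot.sound h)⟩
      left_inv := fun f => rfl
      right_inv := fun g => by
        ext q
        induction q using Quot.ind with
        | mk a => rfl }
  rw [Nat.card_congr e]
  have : Finite (Quot r) := Quot.finite r
  rw [Nat.card_fun, Nat.card_zmod]

theorem card_Inv (Γ : Ribbon k) : Fintype.card (InvG Γ) = 2 ^ Γ.verts := by
  rw [← Nat.card_eq_fintype_card, Ribbon.verts, ← card_resp]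
  refine Nat.card_congr (Equiv.subtypeEquivRight fun f => ?_)
  constructor
  · intro h x y hxy
    rw [← hxy]
    exact (h x).symm
  · intro h d
    exact (h d _ rfl).symm

theorem card_kernel (Γ : Ribbon k) (R : Finset (Fin k)) :
    Nat.card {f : InvG Γ // ∀ e ∈ R, f.1 (e, false) + f.1 (e, true) = 0} = 2 ^ Γ.comps R := by
  rw [Ribbon.comps, ← card_resp]
  refine Nat.card_congr ?_
  refine (Equiv.subtypeSubtypeEquivSubtypeInter (fun f => f ∈ InvG Γ) 
    (fun f => ∀ e ∈ R, f (e, false) + f (e, true) = 0)).trans (Equiv.subtypeEquivRight fun f => ?_)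
  have two : ∀ a b : ZMod 2, a + b = 0 ↔ a = b := by decide
  constructor
  · rintro ⟨h1, h2⟩ x y (hxy | ⟨hx, rfl⟩)
    · rw [← hxy]
      exact (h1 x).symm
    · have h3 := (two _ _).1 (h2 x.1 hx)
      obtain ⟨e, b⟩ := x
      cases b
      · exact h3
      · exact h3.symm
  · intro h
    refine ⟨fun d => (h d _ (Or.inl rfl)).symm, fun e he => ?_⟩
    exact (two _ _).2 (h (e, false) (e, true) (Or.inr ⟨he, rfl⟩))

theorem card_SubR (R : Finset (Fin k)) : Fintype.card (SubR R) = 2 ^ R.card := by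
  classical
  rw [← Nat.card_eq_fintype_card]
  have e : SubR R ≃ (R → ZMod 2) :=
    { toFun := fun x i => x.1 i.1
      invFun := fun g => ⟨fun e => if h : e ∈ R then g ⟨e, h⟩ else 0, fun e he => by simp [he]⟩
      left_inv := fun x => by
        apply Subtype.ext
        ext e
        by_cases h : e ∈ R
        · simp [h]
        · simp [h, x.2 e h]
      right_inv := fun g => by
        ext i
        simp [i.2] }
  rw [Nat.card_congr e, Nat.card_fun, Nat.card_zmod]
  simp

open Classical in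
/-- the number of cycles in `R` -/
theorem card_cyc (Γ : Ribbon k) (R : Finset (Fin k)) :
    #{x : Cyc Γ | ∀ e, e ∉ R → x.1 e = 0} * 2 ^ Γ.verts = 2 ^ (R.card + Γ.comps R) := by
  -- the double sum
  have h1 : ∑ x : SubR R, ∑ f : InvG Γ, sg (pr x.1 f.1) = 
      (#{x : SubR R | x.1 ∈ Cyc Γ} : ℤ) * 2 ^ Γ.verts := by
    have e1 : ∀ x : SubR R, ∑ f : InvG Γ, sg (pr x.1 f.1) = 
        if x.1 ∈ Cyc Γ then (2 : ℤ) ^ Γ.verts else 0 := by
      intro x
      by_cases hx : x.1 ∈ Cyc Γ
      · rw [if_pos hx, Finset.sum_congr rfl (fun f _ => by rw [hx f.1 f.2, sg_zero])]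
        rw [Finset.sum_const, Finset.card_univ, card_Inv]
        simp
      · rw [if_neg hx]
        have : ∃ f ∈ InvG Γ, pr x.1 f ≠ 0 := by
          by_contra hcon
          push Not at hcon
          exact hx hcon
        obtain ⟨f, hf, hne⟩ := this
        exact sum_char (C := InvG Γ) (AddMonoidHom.mk' (fun f => pr x.1 f.1) 
          (fun f g => pr_add_right x.1 f.1 g.1)) ⟨f, hf⟩ hne
    simp only [e1]
    rw [← Finset.sum_filter, Finset.sum_const, nsmul_eq_mul]
  have h2 : ∑ x : SubR R, ∑ f : InvG Γ, sg (pr x.1 f.1) = 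
      (2 : ℤ) ^ Γ.comps R * 2 ^ R.card := by
    rw [Finset.sum_comm]
    have e1 : ∀ f : InvG Γ, ∑ x : SubR R, sg (pr x.1 f.1) = 
        if (∀ e ∈ R, f.1 (e, false) + f.1 (e, true) = 0) then (2 : ℤ) ^ R.card else 0 := by
      intro f
      by_cases hf : ∀ e ∈ R, f.1 (e, false) + f.1 (e, true) = 0
      · rw [if_pos hf, Finset.sum_congr rfl (fun x _ => by
          have : pr x.1 f.1 = 0 := by
            unfold pr
            refine Finset.sum_eq_zero fun e _ => ?_
            by_cases he : e ∈ R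
            · rw [hf e he, mul_zero]
            · rw [x.2 e he, zero_mul]
          rw [this, sg_zero])]
        rw [Finset.sum_const, Finset.card_univ, card_SubR]
        simp
      · rw [if_neg hf]
        push Not at hf
        obtain ⟨e, he, hne⟩ := hf
        refine sum_char (C := SubR R) (AddMonoidHom.mk' (fun x => pr x.1 f.1) 
          (fun x y => pr_add_left x.1 y.1 f.1)) ⟨Pi.single e 1, fun e' he' => ?_⟩ ?_
        · rw [Pi.single_apply, if_neg]
          rintro rfl
          exact he' he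
        · show pr (Pi.single e 1) f.1 ≠ 0
          unfold pr
          rw [Finset.sum_eq_single e]
          · simpa using hne
          · intro e' _ he'
            simp [he']
          · intro h; exact absurd (Finset.mem_univ e) h
    simp only [e1]
    rw [← Finset.sum_filter, Finset.sum_const, nsmul_eq_mul]
    congr 1
    have := card_kernel Γ R
    rw [Nat.card_eq_fintype_card, Fintype.card_subtype] at this
    rw [this]
    simp
  have h3 : #{x : Cyc Γ | ∀ e, e ∉ R → x.1 e = 0} = #{x : SubR R | x.1 ∈ Cyc Γ} := by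
    rw [← Fintype.card_subtype, ← Fintype.card_subtype]
    refine Fintype.card_congr ?_
    exact (Equiv.subtypeSubtypeEquivSubtypeInter (fun x => x ∈ Cyc Γ) 
      (fun x => ∀ e, e ∉ R → x e = 0)).trans ((Equiv.subtypeEquivRight fun x => and_comm).trans 
        (Equiv.subtypeSubtypeEquivSubtypeInter (fun x => x ∈ SubR R) (fun x => x ∈ Cyc Γ)).symm)
  rw [h3]
  rw [h1] at h2
  have h4 : ((#{x : SubR R | x.1 ∈ Cyc Γ} * 2 ^ Γ.verts : ℕ) : ℤ) = 
      ((2 ^ (R.card + Γ.comps R) : ℕ) : ℤ) := by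
    push_cast
    rw [h2, pow_add, mul_comm]
  exact_mod_cast h4

/-- inclusion-exclusion -/
theorem incl_excl (U S : Finset (Fin k)) : 
    ∑ R ∈ S.powerset, (-1 : ℤ) ^ (S.card - R.card) * (if U ⊆ R then 1 else 0) = 
      if U = S then 1 else 0 := by
  by_cases hU : U ⊆ S
  · have h := Finset.prod_add (fun _ : Fin k => (1 : ℤ)) (fun e => if e ∈ U then 0 else -1) S
    have h1 : ∀ R ∈ S.powerset, (∏ _e ∈ R, (1 : ℤ)) * ∏ e ∈ S \ R, (if e ∈ U then (0 : ℤ) else -1) = 
        (-1 : ℤ) ^ (S.card - R.card) * (if U ⊆ R then 1 else 0) := by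
      intro R hR
      rw [Finset.mem_powerset] at hR
      rw [Finset.prod_const_one, one_mul]
      by_cases hUR : U ⊆ R
      · rw [if_pos hUR, mul_one, ← Finset.card_sdiff_of_subset hR, ← Finset.prod_const]
        refine Finset.prod_congr rfl fun e he => ?_
        rw [Finset.mem_sdiff] at he
        rw [if_neg (fun h => he.2 (hUR h))]
      · rw [if_neg hUR, mul_zero]
        obtain ⟨e, he, hne⟩ := Finset.not_subset.1 hUR
        exact Finset.prod_eq_zero (Finset.mem_sdiff.2 ⟨hU he, hne⟩) (by rw [if_pos he])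
    rw [Finset.sum_congr rfl h1] at h
    rw [← h]
    by_cases hS : U = S
    · subst hS
      rw [if_pos rfl]
      refine Finset.prod_eq_one fun e he => ?_
      rw [if_pos he, add_zero]
    · rw [if_neg hS]
      obtain ⟨e, he, hne⟩ := Finset.not_subset.1 (fun h : S ⊆ U => hS (Finset.Subset.antisymm hU h))
      exact Finset.prod_eq_zero he (by rw [if_neg hne]; norm_num)
  · rw [if_neg (fun h : U = S => hU (by rw [h]))]
    refine Finset.sum_eq_zero fun R hR => ?_
    rw [Finset.mem_powerset] at hR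
    rw [if_neg (fun h => hU (h.trans hR)), mul_zero]

open Classical in
/-- the support of a pair of cycles -/
noncomputable def sup2 (Γ : Ribbon k) (x : Cyc Γ × Cyc Γ) : Finset (Fin k) :=
  {e | ¬ (x.1.1 e = 0 ∧ x.2.1 e = 0)}

open Classical in
theorem cpoly_four (Γ : Ribbon k) (S : Finset (Fin k)) :
    (Γ.cpoly S).eval 4 = 4 ^ Γ.verts * ∑ x : Cyc Γ × Cyc Γ, (if sup2 Γ x = S then (1 : ℤ) else 0) := by
  have h1 : ∀ R : Finset (Fin k), (4 : ℤ) ^ (R.card + Γ.comps R) = 
      4 ^ Γ.verts * ∑ x : Cyc Γ × Cyc Γ, (if sup2 Γ x ⊆ R then (1 : ℤ) else 0) := by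
    intro R
    have h := card_cyc Γ R
    have e1 : ∑ x : Cyc Γ × Cyc Γ, (if sup2 Γ x ⊆ R then (1 : ℤ) else 0) = 
        (#{x : Cyc Γ | ∀ e, e ∉ R → x.1 e = 0} : ℤ) ^ 2 := by
      have e2 : ∀ x : Cyc Γ × Cyc Γ, (if sup2 Γ x ⊆ R then (1 : ℤ) else 0) = 
          (if (∀ e, e ∉ R → x.1.1 e = 0) then 1 else 0) * 
            (if (∀ e, e ∉ R → x.2.1 e = 0) then 1 else 0) := by
        intro x
        have : sup2 Γ x ⊆ R ↔ (∀ e, e ∉ R → x.1.1 e = 0) ∧ (∀ e, e ∉ R → x.2.1 e = 0) := by
          unfold sup2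
          constructor
          · intro h
            refine ⟨fun e he => ?_, fun e he => ?_⟩
            · by_contra hne
              exact he (h (Finset.mem_filter.2 ⟨Finset.mem_univ _, fun h => hne h.1⟩))
            · by_contra hne
              exact he (h (Finset.mem_filter.2 ⟨Finset.mem_univ _, fun h => hne h.2⟩))
          · rintro ⟨h1, h2⟩ e he
            rw [Finset.mem_filter] at he
            by_contra hne
            exact he.2 ⟨h1 e hne, h2 e hne⟩
        by_cases c1 : (∀ e, e ∉ R → x.1.1 e = 0)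
        · by_cases c2 : (∀ e, e ∉ R → x.2.1 e = 0)
          · rw [if_pos (this.2 ⟨c1, c2⟩), if_pos c1, if_pos c2, one_mul]
          · rw [if_neg (fun h => c2 (this.1 h).2), if_neg c2, mul_zero]
        · rw [if_neg (fun h => c1 (this.1 h).1), if_neg c1, zero_mul]
      rw [Finset.sum_congr rfl (fun x _ => e2 x), Fintype.sum_prod_type]
      have hb : (#{x : Cyc Γ | ∀ e, e ∉ R → x.1 e = 0} : ℤ) = 
          ∑ x : Cyc Γ, (if (∀ e, e ∉ R → x.1 e = 0) then 1 else 0) := (Finset.sum_boole _ _).symm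
      rw [hb, sq, Finset.sum_mul_sum]
    rw [e1]
    have h' : ((#{x : Cyc Γ | ∀ e, e ∉ R → x.1 e = 0} * 2 ^ Γ.verts : ℕ) : ℤ) = 
        ((2 ^ (R.card + Γ.comps R) : ℕ) : ℤ) := by rw [h]
    push_cast at h'
    have h4 : (4 : ℤ) ^ (R.card + Γ.comps R) = ((2 : ℤ) ^ (R.card + Γ.comps R)) ^ 2 := by
      rw [← pow_mul, mul_comm, pow_mul]; norm_num
    have h5 : (4 : ℤ) ^ Γ.verts = ((2 : ℤ) ^ Γ.verts) ^ 2 := by
      rw [← pow_mul, mul_comm, pow_mul]; norm_num
    rw [h4, ← h', h5]
    ring
  unfold Ribbon.cpoly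
  rw [Polynomial.eval_finsetSum]
  have h2 : ∀ R ∈ S.powerset, 
      Polynomial.eval 4 ((-1) ^ (S.card - R.card) * Polynomial.X ^ (R.card + Γ.comps R) : Polynomial ℤ) = 
        4 ^ Γ.verts * ∑ x : Cyc Γ × Cyc Γ, (-1 : ℤ) ^ (S.card - R.card) * 
          (if sup2 Γ x ⊆ R then (1 : ℤ) else 0) := by
    intro R _
    rw [Polynomial.eval_mul, Polynomial.eval_pow, Polynomial.eval_pow, Polynomial.eval_X, 
      Polynomial.eval_neg, Polynomial.eval_one, h1, ← Finset.mul_sum]
    ring
  rw [Finset.sum_congr rfl h2, ← Finset.mul_sum, Finset.sum_comm]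
  congr 1
  refine Finset.sum_congr rfl fun x _ => ?_
  exact incl_excl (sup2 Γ x) S

/-- sums over the spanning subgraphs are sums over the pairs of cycles -/
theorem sum_four (Γ : Ribbon k) (g : Finset (Fin k) → ℤ) :
    ∑ S : Finset (Fin k), g S * (Γ.cpoly S).eval 4 = 
      4 ^ Γ.verts * ∑ x : Cyc Γ × Cyc Γ, g (sup2 Γ x) := by
  classical
  simp only [cpoly_four, Finset.mul_sum]
  rw [Finset.sum_comm]
  refine Finset.sum_congr rfl fun x _ => ?_
  rw [Finset.sum_eq_single (sup2 Γ x)]
  · rw [if_pos rfl]; ring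
  · intro S _ hS
    rw [if_neg (Ne.symm hS)]; ring
  · intro h; exact absurd (Finset.mem_univ _) h

/-- a graph which is not a tree has a cycle -/
theorem exists_cycle (Γ : Ribbon k) (h1 : Γ.comps Finset.univ = 1) (h2 : Γ.verts ≤ k) :
    ∃ x : Cyc Γ, x ≠ 0 := by
  classical
  by_contra hcon
  push Not at hcon
  have h := card_cyc Γ Finset.univ
  rw [h1, Finset.card_univ, Fintype.card_fin] at h
  have h3 : #{x : Cyc Γ | ∀ e, e ∉ (Finset.univ : Finset (Fin k)) → x.1 e = 0} ≤ 1 := by
    rw [Finset.card_le_one]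
    intro a _ b _
    rw [hcon a, hcon b]
  have h4 : 2 ^ (k + 1) ≤ 2 ^ Γ.verts := by
    rw [← h]
    calc _ ≤ 1 * 2 ^ Γ.verts := Nat.mul_le_mul_right _ h3
      _ = _ := one_mul _
  have := (Nat.pow_le_pow_iff_right (by norm_num : 1 < 2)).1 h4
  omega

theorem comps_empty (Γ : Ribbon k) : Γ.comps ∅ = Γ.verts := by
  unfold Ribbon.comps Ribbon.verts
  have : (fun x y : Fin k × Bool => Γ.rot x = y ∨ (x.1 ∈ (∅ : Finset (Fin k)) ∧ y = flip x)) = 
      (fun x y : Fin k × Bool => Γ.rot x = y) := by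
    ext x y
    simp
  rw [this]

/-- a forest contains no cycle -/
theorem forest_zero (Γ : Ribbon k) (F : Finset (Fin k)) (hF : Fᶜ.card + Γ.comps Fᶜ = Γ.verts)
    (x : Cyc Γ) (hx : ∀ e ∈ F, x.1 e = 0) : x = 0 := by
  classical
  have h := card_cyc Γ Fᶜ
  rw [hF] at h
  have h1 : #{x : Cyc Γ | ∀ e, e ∉ Fᶜ → x.1 e = 0} = 1 := by
    have : 0 < 2 ^ Γ.verts := by positivity
    exact Nat.eq_of_mul_eq_mul_right this (by rw [h, one_mul])
  obtain ⟨y, hy⟩ := Finset.card_eq_one.1 h1
  have hx' : x ∈ ({x : Cyc Γ | ∀ e, e ∉ Fᶜ → x.1 e = 0} : Finset (Cyc Γ)) := by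
    rw [Finset.mem_filter]
    exact ⟨Finset.mem_univ _, fun e he => hx e (by simpa using he)⟩
  have h0 : (0 : Cyc Γ) ∈ ({x : Cyc Γ | ∀ e, e ∉ Fᶜ → x.1 e = 0} : Finset (Cyc Γ)) := by
    rw [Finset.mem_filter]
    exact ⟨Finset.mem_univ _, fun e _ => rfl⟩
  rw [hy, Finset.mem_singleton] at hx' h0
  rw [hx', h0]

end Pool.Agent.H953R3.Q2
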