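import Pool.Agent.H832R3.VJ.Fin

set_option autoImplicit false

/-! The moments of order at most two. -/

namespace Pool.Agent.H953R3.Q2

open Finset LaurentPolynomial Pool.Agent.H891R2.Jones Pool.Agent.H891R2.MT Pool.Agent.H832R3.VJ
open Pool.Agent.H832R3.VJ.V7 (momH momH_apply moment_term moment_T_mul moment_C_mul)

theorem m_zero (j : ℕ) : moment j 0 = 0 := by rw [← momH_apply, map_zero]

theorem m_sum {ι : Type} (j : ℕ) (s : Finset ι) (F : ι → ℤ[T;T⁻¹]) :
    moment j (∑ i ∈ s, F i) = ∑ i ∈ s, moment j (F i) := by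
  rw [← momH_apply, map_sum]
  rfl

theorem m_one (j : ℕ) : moment j 1 = if j = 0 then 1 else 0 := by
  have h : (1 : ℤ[T;T⁻¹]) = C 1 * T 0 := by rw [map_one, T_zero, one_mul]
  rw [h, moment_term, one_mul]
  split_ifs with h0
  · subst h0; simp
  · simp [h0]

theorem T_mul0 (m : ℤ) (F : ℤ[T;T⁻¹]) : moment 0 (T m * F) = moment 0 F := by
  rw [moment_T_mul]; simp

theorem T_mul1 (m : ℤ) (F : ℤ[T;T⁻¹]) : moment 1 (T m * F) = m * moment 0 F + moment 1 F := by
  rw [moment_T_mul]; simp [Finset.sum_range_succ]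

theorem T_mul2 (m : ℤ) (F : ℤ[T;T⁻¹]) :
    moment 2 (T m * F) = m ^ 2 * moment 0 F + 2 * m * moment 1 F + moment 2 F := by
  rw [moment_T_mul]; simp [Finset.sum_range_succ]

theorem mul0 (G F : ℤ[T;T⁻¹]) : moment 0 (G * F) = moment 0 G * moment 0 F := by
  induction G using LaurentPolynomial.induction_on' with
  | add p q hp hq => rw [add_mul, moment_add, hp, hq, moment_add]; ring
  | C_mul_T n a =>
    rw [mul_assoc, moment_C_mul, T_mul0, moment_term]; ring

theorem mul1 (G F : ℤ[T;T⁻¹]) :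
    moment 1 (G * F) = moment 1 G * moment 0 F + moment 0 G * moment 1 F := by
  induction G using LaurentPolynomial.induction_on' with
  | add p q hp hq => rw [add_mul, moment_add, hp, hq, moment_add, moment_add]; ring
  | C_mul_T n a =>
    rw [mul_assoc, moment_C_mul, T_mul1, moment_term, moment_term]; ring

theorem mul2 (G F : ℤ[T;T⁻¹]) : moment 2 (G * F) = 
    moment 2 G * moment 0 F + 2 * (moment 1 G * moment 1 F) + moment 0 G * moment 2 F := by
  induction G using LaurentPolynomial.induction_on' with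
  | add p q hp hq => rw [add_mul, moment_add, hp, hq, moment_add, moment_add, moment_add]; ring
  | C_mul_T n a =>
    rw [mul_assoc, moment_C_mul, T_mul2, moment_term, moment_term, moment_term]; ring

/-- `m₀² (log F)''` -/
noncomputable def kap (F : ℤ[T;T⁻¹]) : ℤ := moment 0 F * moment 2 F - moment 1 F ^ 2

theorem kap_mul (G F : ℤ[T;T⁻¹]) : 
    kap (G * F) = moment 0 G ^ 2 * kap F + moment 0 F ^ 2 * kap G := by
  unfold kap
  rw [mul0, mul1, mul2]
  ring

theorem kap_T (m : ℤ) : kap (T m) = 0 := by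
  unfold kap
  have h : (T m : ℤ[T;T⁻¹]) = C 1 * T m := by rw [map_one, one_mul]
  rw [h, moment_term, moment_term, moment_term]
  ring

theorem m0_T (m : ℤ) : moment 0 (T m : ℤ[T;T⁻¹]) = 1 := by
  have h : (T m : ℤ[T;T⁻¹]) = C 1 * T m := by rw [map_one, one_mul]
  rw [h, moment_term]
  ring

theorem kap_C (a : ℤ) : kap (C a : ℤ[T;T⁻¹]) = 0 := by
  unfold kap
  have h : (C a : ℤ[T;T⁻¹]) = C a * T 0 := by rw [T_zero, mul_one]
  rw [h, moment_term, moment_term, moment_term]
  ring

theorem m0_C (a : ℤ) : moment 0 (C a : ℤ[T;T⁻¹]) = a := by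
  have h : (C a : ℤ[T;T⁻¹]) = C a * T 0 := by rw [T_zero, mul_one]
  rw [h, moment_term]
  ring

/-- units do not change the invariants -/
theorem kap_unit (a m : ℤ) (ha : a ^ 2 = 1) (F : ℤ[T;T⁻¹]) : kap (C a * T m * F) = kap F := by
  rw [kap_mul, kap_mul, mul0, kap_T, kap_C, m0_T, m0_C, mul_one, ha]
  ring

theorem m0_unit (a m : ℤ) (ha : a ^ 2 = 1) (F : ℤ[T;T⁻¹]) : 
    moment 0 (C a * T m * F) ^ 2 = moment 0 F ^ 2 := by
  rw [mul0, mul0, m0_T, m0_C, mul_one, mul_pow, ha, one_mul]

/-! the polynomials in `δ²` -/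

/-- `δ²` -/
noncomputable def dsq : ℤ[T;T⁻¹] := (-T 2 - T (-2)) ^ 2

theorem dsq_eq : dsq = C 1 * T 4 + C 2 * T 0 + C 1 * T (-4) := by
  unfold dsq
  have h1 : (T 2 * T 2 : ℤ[T;T⁻¹]) = T 4 := by rw [← T_add]; norm_num
  have h2 : (T (-2) * T (-2) : ℤ[T;T⁻¹]) = T (-4) := by rw [← T_add]; norm_num
  have h3 : (T 2 * T (-2) : ℤ[T;T⁻¹]) = 1 := by rw [← T_add]; simp
  have h4 : (C 2 : ℤ[T;T⁻¹]) = 2 := by simp
  rw [map_one, one_mul, one_mul, h4, T_zero]
  linear_combination h1 + h2 + 2 * h3

theorem dsq0 : moment 0 dsq = 4 := by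
  rw [dsq_eq, moment_add, moment_add, moment_term, moment_term, moment_term]
  norm_num

theorem dsq1 : moment 1 dsq = 0 := by
  rw [dsq_eq, moment_add, moment_add, moment_term, moment_term, moment_term]
  norm_num

theorem aeval0 (p : Polynomial ℤ) : moment 0 (Polynomial.aeval dsq p) = p.eval 4 := by
  induction p using Polynomial.induction_on' with
  | add p q hp hq => rw [map_add, moment_add, hp, hq, Polynomial.eval_add]
  | monomial n a =>
    rw [Polynomial.aeval_monomial, Polynomial.eval_monomial]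
    have h : (algebraMap ℤ ℤ[T;T⁻¹]) a = C a := by simp
    rw [h, moment_C_mul]
    congr 1
    induction n with
    | zero => rw [pow_zero, m_one]; simp
    | succ n ih => rw [pow_succ, mul0, ih, dsq0, pow_succ]

theorem aeval1 (p : Polynomial ℤ) : moment 1 (Polynomial.aeval dsq p) = 0 := by
  induction p using Polynomial.induction_on' with
  | add p q hp hq => rw [map_add, moment_add, hp, hq, add_zero]
  | monomial n a =>
    rw [Polynomial.aeval_monomial]
    have h : (algebraMap ℤ ℤ[T;T⁻¹]) a = C a := by simp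
    rw [h, moment_C_mul]
    have : moment 1 (dsq ^ n) = 0 := by
      induction n with
      | zero => rw [pow_zero, m_one]; simp
      | succ n ih => rw [pow_succ, mul1, ih, dsq1]; simp
    rw [this, mul_zero]

end Pool.Agent.H953R3.Q2
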