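import Mathlib

set_option autoImplicit false

/-! The number of zeros of a quadratic polynomial in a box. -/

namespace Pool.Agent.H953R3.Q2

open Finset

variable {k : ℕ}

/-- the quadratic form with matrix `q` -/
def QF (q : Fin k → Fin k → ℤ) (n : Fin k → ℤ) : ℤ := ∑ e, ∑ f, n e * n f * q e f

theorem QF_add (q : Fin k → Fin k → ℤ) (hq : ∀ e f, q e f = q f e) (n : Fin k → ℤ) (i : Fin k)
    (δ : ℤ) : QF q (fun e => n e + if e = i then δ else 0) = 
      QF q n + 2 * δ * (∑ f, q i f * n f) + δ ^ 2 * q i i := by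
  unfold QF
  have h1 : ∀ e f : Fin k, (n e + if e = i then δ else 0) * (n f + if f = i then δ else 0) * q e f = 
      n e * n f * q e f + (if e = i then δ * (q i f * n f) else 0) + 
        (if f = i then δ * (q i e * n e) else 0) + 
          (if e = i then (if f = i then δ ^ 2 * q i i else 0) else 0) := by
    intro e f
    by_cases h : e = i <;> by_cases h' : f = i
    · subst h; subst h'; simp; ring
    · subst h; simp [h']; ring
    · subst h'; simp [h]; rw [hq e f]; ring
    · simp [h, h']
  simp only [h1, Finset.sum_add_distrib]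
  have h2 : ∑ e : Fin k, ∑ f : Fin k, (if e = i then δ * (q i f * n f) else 0) = 
      δ * ∑ f, q i f * n f := by
    rw [Finset.sum_comm, Finset.mul_sum]
    refine Finset.sum_congr rfl fun f _ => ?_
    rw [Finset.sum_ite_eq' Finset.univ i]
    simp
  have h3 : ∑ e : Fin k, ∑ f : Fin k, (if f = i then δ * (q i e * n e) else 0) = 
      δ * ∑ f, q i f * n f := by
    rw [Finset.mul_sum]
    refine Finset.sum_congr rfl fun f _ => ?_
    rw [Finset.sum_ite_eq' Finset.univ i]
    simp
  have h4 : ∑ e : Fin k, ∑ f : Fin k, (if e = i then (if f = i then δ ^ 2 * q i i else 0) else 0) = 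
      δ ^ 2 * q i i := by
    rw [Finset.sum_comm, Finset.sum_congr rfl (fun f _ => Finset.sum_ite_eq' Finset.univ i _)]
    simp
  rw [h2, h3, h4]
  ring

theorem shift_eq (n n' : Fin k → ℤ) (i : Fin k) (h : ∀ j ∉ ({i} : Finset (Fin k)), n j = n' j) :
    n' = fun e => n e + if e = i then (n' i - n i) else 0 := by
  ext e
  by_cases he : e = i
  · subst he; simp
  · simp [he, h e (by simpa using he)]

/-- fibers with at most two elements -/
theorem count_two_fiber (A : Fin k → Finset ℤ) (M : ℕ) (i : Fin k) (hM : M ≤ (A i).card)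
    (B : Finset (Fin k → ℤ)) (hB : B ⊆ Fintype.piFinset A)
    (h : ∀ n ∈ B, ∀ n' ∈ B, ∀ n'' ∈ B, (∀ j ∉ ({i} : Finset (Fin k)), n j = n' j) → 
      (∀ j ∉ ({i} : Finset (Fin k)), n j = n'' j) → n ≠ n' → n ≠ n'' → n' ≠ n'' → False) :
    M * B.card ≤ 2 * ∏ i, (A i).card := by
  classical
  let r : (Fin k → ℤ) → (Fin k → ℤ) := fun n j => if j = i then 0 else n j
  let R : Finset (Fin k → ℤ) := Fintype.piFinset (fun j => if j = i then {0} else A j)
  have hmaps : ∀ n ∈ B, r n ∈ R := by
    intro n hn
    rw [Fintype.mem_piFinset]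
    intro j
    have := (Fintype.mem_piFinset.1 (hB hn)) j
    by_cases hi : j = i <;> simp [r, hi, this]
  have hag : ∀ n n' : Fin k → ℤ, r n = r n' → ∀ j ∉ ({i} : Finset (Fin k)), n j = n' j := by
    intro n n' h j hj
    have h1 := congrFun h j
    simp only [Finset.mem_singleton] at hj
    simpa [r, hj] using h1
  have hfib : ∀ b ∈ R, #{n ∈ B | r n = b} ≤ 2 := by
    intro b _
    by_contra hcon
    push Not at hcon
    obtain ⟨n, n', n'', h1, h2, h3, h4, h5, h6⟩ := Finset.two_lt_card_iff.1 hcon
    rw [Finset.mem_filter] at h1 h2 h3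
    exact h n h1.1 n' h2.1 n'' h3.1 (hag _ _ (h1.2.trans h2.2.symm)) (hag _ _ (h1.2.trans h3.2.symm))
      h4 h5 h6
  have h1 := Finset.card_le_mul_card_image_of_maps_to hmaps _ hfib
  have hR : R.card = ∏ j ∈ ({i} : Finset (Fin k))ᶜ, (A j).card := by
    rw [Fintype.card_piFinset, ← Finset.prod_mul_prod_compl ({i} : Finset (Fin k))]
    rw [Finset.prod_singleton]
    simp only [if_true, Finset.card_singleton, one_mul]
    refine Finset.prod_congr rfl fun j hj => ?_
    rw [Finset.mem_compl, Finset.mem_singleton] at hj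
    simp [hj]
  calc M * B.card ≤ (A i).card * (2 * ∏ j ∈ ({i} : Finset (Fin k))ᶜ, (A j).card) := by
        refine Nat.mul_le_mul hM ?_
        rw [← hR]
        exact h1
    _ = 2 * ∏ i, (A i).card := by
        rw [← Finset.prod_mul_prod_compl ({i} : Finset (Fin k)), Finset.prod_singleton]
        ring

/-- fibers with at most one element -/
theorem count_one_fiber (A : Fin k → Finset ℤ) (M : ℕ) (i : Fin k) (hM : M ≤ (A i).card)
    (B : Finset (Fin k → ℤ)) (hB : B ⊆ Fintype.piFinset A)
    (h : ∀ n ∈ B, ∀ n' ∈ B, (∀ j ∉ ({i} : Finset (Fin k)), n j = n' j) → n = n') :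
    M * B.card ≤ ∏ i, (A i).card := by
  classical
  let r : (Fin k → ℤ) → (Fin k → ℤ) := fun n j => if j = i then 0 else n j
  let R : Finset (Fin k → ℤ) := Fintype.piFinset (fun j => if j = i then {0} else A j)
  have hmaps : ∀ n ∈ B, r n ∈ R := by
    intro n hn
    rw [Fintype.mem_piFinset]
    intro j
    have := (Fintype.mem_piFinset.1 (hB hn)) j
    by_cases hi : j = i <;> simp [r, hi, this]
  have hag : ∀ n n' : Fin k → ℤ, r n = r n' → ∀ j ∉ ({i} : Finset (Fin k)), n j = n' j := by
    intro n n' h j hj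
    have h1 := congrFun h j
    simp only [Finset.mem_singleton] at hj
    simpa [r, hj] using h1
  have h1 : B.card ≤ R.card := Finset.card_le_card_of_injOn r hmaps 
    (fun n hn n' hn' he => h n hn n' hn' (hag n n' he))
  have hR : R.card = ∏ j ∈ ({i} : Finset (Fin k))ᶜ, (A j).card := by
    rw [Fintype.card_piFinset, ← Finset.prod_mul_prod_compl ({i} : Finset (Fin k))]
    rw [Finset.prod_singleton]
    simp only [if_true, Finset.card_singleton, one_mul]
    refine Finset.prod_congr rfl fun j hj => ?_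
    rw [Finset.mem_compl, Finset.mem_singleton] at hj
    simp [hj]
  calc M * B.card ≤ (A i).card * ∏ j ∈ ({i} : Finset (Fin k))ᶜ, (A j).card := by
        refine Nat.mul_le_mul hM ?_
        rw [← hR]
        exact h1
    _ = ∏ i, (A i).card := by
        rw [← Finset.prod_mul_prod_compl ({i} : Finset (Fin k)), Finset.prod_singleton]

open Classical in
/-- the zeros of a quadratic polynomial in a box -/
theorem count_quad (q : Fin k → Fin k → ℤ) (hq : ∀ e f, q e f = q f e) (F : Finset (Fin k))
    (hne : ∃ e ∈ F, ∃ f ∈ F, q e f ≠ 0)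
    (c : ℤ) (A : Fin k → Finset ℤ) (M : ℕ) (hM : ∀ e ∈ F, M ≤ (A e).card) :
    M * #{n ∈ Fintype.piFinset A | QF q n = c} ≤ 2 * ∏ e, (A e).card := by
  -- the difference of two values
  have hdiff : ∀ n n' : Fin k → ℤ, ∀ i, (∀ j ∉ ({i} : Finset (Fin k)), n j = n' j) → 
      QF q n' = QF q n + 2 * (n' i - n i) * (∑ f, q i f * n f) + (n' i - n i) ^ 2 * q i i := by
    intro n n' i h
    conv_lhs => rw [shift_eq n n' i h]
    exact QF_add q hq n i _
  have hval : ∀ n n' : Fin k → ℤ, ∀ i, (∀ j ∉ ({i} : Finset (Fin k)), n j = n' j) → n ≠ n' → 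
      n' i - n i ≠ 0 := by
    intro n n' i h hne h0
    apply hne
    ext j
    by_cases hj : j = i
    · subst hj; linarith
    · exact h j (by simpa using hj)
  by_cases hd : ∃ i ∈ F, q i i ≠ 0
  · obtain ⟨i, hiF, hi⟩ := hd
    refine count_two_fiber A M i (hM i hiF) _ (Finset.filter_subset _ _) ?_
    intro n hn n' hn' n'' hn'' h1 h2 h3 h4 h5
    rw [Finset.mem_filter] at hn hn' hn''
    have e1 := hdiff n n' i h1
    have e2 := hdiff n n'' i h2
    rw [hn.2, hn'.2] at e1
    rw [hn.2, hn''.2] at e2
    have d1 := hval n n' i h1 h3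
    have d2 := hval n n'' i h2 h4
    have h12 : ∀ j ∉ ({i} : Finset (Fin k)), n' j = n'' j := fun j hj => by rw [← h1 j hj, h2 j hj]
    have d3 := hval n' n'' i h12 h5
    have f1 : 2 * (∑ f, q i f * n f) + (n' i - n i) * q i i = 0 := by
      have : (n' i - n i) * (2 * (∑ f, q i f * n f) + (n' i - n i) * q i i) = 0 := by linarith
      exact (mul_eq_zero.1 this).resolve_left d1
    have f2 : 2 * (∑ f, q i f * n f) + (n'' i - n i) * q i i = 0 := by
      have : (n'' i - n i) * (2 * (∑ f, q i f * n f) + (n'' i - n i) * q i i) = 0 := by linarith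
      exact (mul_eq_zero.1 this).resolve_left d2
    have f3 : (n'' i - n' i) * q i i = 0 := by linarith
    rcases mul_eq_zero.1 f3 with h | h
    · exact d3 h
    · exact hi h
  · push Not at hd
    obtain ⟨e, heF, f, hfF, hef⟩ := hne
    set B := ({n ∈ Fintype.piFinset A | QF q n = c}) with hBdef
    have hsub : B ⊆ {n ∈ B | ∑ g, q e g * n g = 0} ∪ {n ∈ B | ∑ g, q e g * n g ≠ 0} := by
      intro n hn
      rw [Finset.mem_union]
      by_cases h : ∑ g, q e g * n g = 0
      · exact Or.inl (Finset.mem_filter.2 ⟨hn, h⟩)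
      · exact Or.inr (Finset.mem_filter.2 ⟨hn, h⟩)
    have hlin : ∀ n n' : Fin k → ℤ, ∀ i, (∀ j ∉ ({i} : Finset (Fin k)), n j = n' j) → 
        ∑ g, q e g * n' g = ∑ g, q e g * n g + q e i * (n' i - n i) := by
      intro n n' i h
      conv_lhs => rw [shift_eq n n' i h]
      simp only [mul_add, Finset.sum_add_distrib]
      congr 1
      simp
    have c1 := count_one_fiber A M f (hM f hfF) {n ∈ B | ∑ g, q e g * n g = 0}
      ((Finset.filter_subset _ _).trans (Finset.filter_subset _ _)) (by
        intro n hn n' hn' hag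
        by_contra hne
        rw [Finset.mem_filter] at hn hn'
        have h1 := hlin n n' f hag
        rw [hn.2, hn'.2, zero_add] at h1
        exact hval n n' f hag hne ((mul_eq_zero.1 h1.symm).resolve_left hef))
    have c2 := count_one_fiber A M e (hM e heF) {n ∈ B | ∑ g, q e g * n g ≠ 0}
      ((Finset.filter_subset _ _).trans (Finset.filter_subset _ _)) (by
        intro n hn n' hn' hag
        by_contra hne
        rw [Finset.mem_filter] at hn hn'
        have h1 := hdiff n n' e hag
        rw [hBdef, Finset.mem_filter] at hn hn'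
        rw [hn.1.2, hn'.1.2, hd e heF, mul_zero, add_zero] at h1
        have h2 : (n' e - n e) * (∑ g, q e g * n g) = 0 := by linarith
        exact hval n n' e hag hne ((mul_eq_zero.1 h2).resolve_right hn.2))
    calc M * B.card ≤ M * (#{n ∈ B | ∑ g, q e g * n g = 0} + #{n ∈ B | ∑ g, q e g * n g ≠ 0}) :=
          Nat.mul_le_mul_left _ ((Finset.card_le_card hsub).trans (Finset.card_union_le _ _))
      _ ≤ _ := by
          rw [Nat.mul_add]
          omega

end Pool.Agent.H953R3.Q2
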