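import Pool.Agent.H953R3.Q2.Cyc
import Pool.Agent.H953R3.Q2.Quad
import Pool.Agent.H953R3.Q2.Mom

set_option autoImplicit false

/-! Assembly: the second moment of the Jones polynomial of a twisted plane graph is a nonconstant
quadratic polynomial on every parity class of twist numbers. -/

namespace Pool.Agent.H953R3.Q2

open Finset LaurentPolynomial Pool.Agent.H891R2.Jones Pool.Agent.H891R2.MT Pool.Agent.H832R3.VJ
open Pool.Agent.H832R3.VJ.V7 (moment_C_mul)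

variable {k : ℕ}

/-- the bilinear form on the cycle space -/
def BF (Γ : Ribbon k) (t : Fin k → ZMod 2) : Cyc Γ →+ Cyc Γ →+ ZMod 2 :=
  AddMonoidHom.mk' (fun a => AddMonoidHom.mk' (fun b => ∑ e, t e * (a.1 e * b.1 e)) (by
    intro b c
    rw [← Finset.sum_add_distrib]
    refine Finset.sum_congr rfl fun e _ => ?_
    have : (b + c).1 e = b.1 e + c.1 e := rfl
    rw [this]; ring)) (by
    intro b c
    ext a
    show ∑ e, t e * ((b + c).1 e * a.1 e) = ∑ e, t e * (b.1 e * a.1 e) + ∑ e, t e * (c.1 e * a.1 e)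
    rw [← Finset.sum_add_distrib]
    refine Finset.sum_congr rfl fun e _ => ?_
    have : (b + c).1 e = b.1 e + c.1 e := rfl
    rw [this]; ring)

theorem BF_apply (Γ : Ribbon k) (t : Fin k → ZMod 2) (a b : Cyc Γ) :
    BF Γ t a b = ∑ e, t e * (a.1 e * b.1 e) := rfl

theorem BF_symm (Γ : Ribbon k) (t : Fin k → ZMod 2) (a b : Cyc Γ) : BF Γ t a b = BF Γ t b a := by
  rw [BF_apply, BF_apply]
  exact Finset.sum_congr rfl fun e _ => by ring

/-- the coordinate functions -/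
def el (Γ : Ribbon k) (e : Fin k) : Cyc Γ →+ ZMod 2 := AddMonoidHom.mk' (fun a => a.1 e) (fun _ _ => rfl)

theorem el_apply (Γ : Ribbon k) (e : Fin k) (a : Cyc Γ) : el Γ e a = a.1 e := rfl

/-- the matrix of the quadratic form -/
noncomputable def qq (Γ : Ribbon k) (t : Fin k → ZMod 2) (e f : Fin k) : ℤ :=
  ZZ (BF Γ t) * V2 (BF Γ t) (el Γ e) (el Γ f) - V1 (BF Γ t) (el Γ e) * V1 (BF Γ t) (el Γ f)

theorem qq_symm (Γ : Ribbon k) (t : Fin k → ZMod 2) (e f : Fin k) : qq Γ t e f = qq Γ t f e := by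
  unfold qq
  have : V2 (BF Γ t) (el Γ e) (el Γ f) = V2 (BF Γ t) (el Γ f) (el Γ e) := by
    unfold V2
    exact Finset.sum_congr rfl fun x _ => by ring
  rw [this]
  ring

theorem qq_ne (Γ : Ribbon k) (h1 : Γ.comps Finset.univ = 1) (h2 : Γ.verts ≤ k)
    (F : Finset (Fin k)) (hF : Fᶜ.card + Γ.comps Fᶜ = Γ.verts)
    (t : Fin k → ZMod 2) : ∃ e ∈ F, ∃ f ∈ F, qq Γ t e f ≠ 0 := by
  obtain ⟨x0, hx0⟩ := exists_cycle Γ h1 h2
  obtain ⟨e, f, h⟩ := cov_ne (ι := F) (BF Γ t) (BF_symm Γ t) (fun e => el Γ e.1) 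
    (fun x hx => forest_zero Γ F hF x (fun e he => hx ⟨e, he⟩)) x0 hx0
  exact ⟨e.1, e.2, f.1, f.2, fun h0 => h (by unfold qq at h0; linarith)⟩

theorem sign_int (m : ℤ) : (-1 : ℤ) ^ m.natAbs = sg (m : ZMod 2) := by
  unfold sg
  by_cases h : (m : ZMod 2) = 0
  · rw [if_pos h]
    have h1 : (2 : ℤ) ∣ m := by
      have := (CharP.intCast_eq_zero_iff (ZMod 2) 2 m).1 h
      exact_mod_cast this
    have : Even m.natAbs := by
      rw [Int.natAbs_even]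
      exact even_iff_two_dvd.2 h1
    exact this.neg_one_pow
  · rw [if_neg h]
    have h1 : ¬ (2 : ℤ) ∣ m := fun h2 => h ((CharP.intCast_eq_zero_iff (ZMod 2) 2 m).2 (by exact_mod_cast h2))
    have : Odd m.natAbs := by
      rw [Int.natAbs_odd]
      rw [← Int.not_even_iff_odd]
      intro h2
      exact h1 (even_iff_two_dvd.1 h2)
    exact this.neg_one_pow

theorem cast_nS (n : Fin k → ℤ) (t : Fin k → ZMod 2) (ht : ∀ e, ((n e : ℤ) : ZMod 2) = t e)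
    (S : Finset (Fin k)) : ((nS n S : ℤ) : ZMod 2) = ∑ e ∈ S, t e := by
  unfold nS
  rw [Int.cast_sum]
  exact Finset.sum_congr rfl fun e _ => ht e

theorem sign_eq (Γ : Ribbon k) (n : Fin k → ℤ) (t : Fin k → ZMod 2)
    (ht : ∀ e, ((n e : ℤ) : ZMod 2) = t e) (x : Cyc Γ × Cyc Γ) :
    (-1 : ℤ) ^ (nS n (sup2 Γ x)).natAbs = sg (hh (BF Γ t) x) := by
  classical
  rw [sign_int, cast_nS n t ht]
  congr 1
  unfold hh
  rw [BF_apply, BF_apply, BF_apply, ← Finset.sum_add_distrib, ← Finset.sum_add_distrib]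
  unfold sup2
  rw [Finset.sum_filter]
  refine Finset.sum_congr rfl fun e _ => ?_
  generalize t e = z
  generalize x.1.1 e = a
  generalize x.2.1 e = b
  revert z a b
  decide

/-- the deficiency `n(E) - n(S)` -/
def zz (Γ : Ribbon k) (n : Fin k → ℤ) (x : Cyc Γ × Cyc Γ) : ℤ := ∑ e, n e * ind (x.1.1 e) (x.2.1 e)

theorem nS_sup2 (Γ : Ribbon k) (n : Fin k → ℤ) (x : Cyc Γ × Cyc Γ) :
    nS n (sup2 Γ x) = (∑ e, n e) - zz Γ n x := by
  classical
  unfold nS zz sup2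
  rw [Finset.sum_filter, ← Finset.sum_sub_distrib]
  refine Finset.sum_congr rfl fun e _ => ?_
  unfold ind
  by_cases h : x.1.1 e = 0 ∧ x.2.1 e = 0
  · rw [if_neg (not_not.2 h), if_pos h]; ring
  · rw [if_pos h, if_neg h]; ring

theorem sum_z (Γ : Ribbon k) (n : Fin k → ℤ) (t : Fin k → ZMod 2) :
    ∑ x : Cyc Γ × Cyc Γ, sg (hh (BF Γ t) x) * zz Γ n x = ∑ e, n e * V1 (BF Γ t) (el Γ e) := by
  unfold zz V1
  simp only [Finset.mul_sum]
  rw [Finset.sum_comm]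
  refine Finset.sum_congr rfl fun e _ => Finset.sum_congr rfl fun x _ => ?_
  rw [el_apply, el_apply]; ring

theorem sum_zz (Γ : Ribbon k) (n : Fin k → ℤ) (t : Fin k → ZMod 2) :
    ∑ x : Cyc Γ × Cyc Γ, sg (hh (BF Γ t) x) * zz Γ n x ^ 2 = 
      ∑ e, ∑ f, n e * n f * V2 (BF Γ t) (el Γ e) (el Γ f) := by
  have h1 : ∀ x : Cyc Γ × Cyc Γ, sg (hh (BF Γ t) x) * zz Γ n x ^ 2 = 
      ∑ e, ∑ f, n e * n f * (sg (hh (BF Γ t) x) * 
        (ind (el Γ e x.1) (el Γ e x.2) * ind (el Γ f x.1) (el Γ f x.2))) := by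
    intro x
    unfold zz
    rw [sq, Finset.sum_mul_sum, Finset.mul_sum]
    refine Finset.sum_congr rfl fun e _ => ?_
    rw [Finset.mul_sum]
    refine Finset.sum_congr rfl fun f _ => ?_
    simp only [el_apply]
    ring
  simp only [h1]
  rw [Finset.sum_comm]
  refine Finset.sum_congr rfl fun e _ => ?_
  rw [Finset.sum_comm]
  refine Finset.sum_congr rfl fun f _ => ?_
  unfold V2
  rw [Finset.mul_sum]

/-- the three sums -/
theorem three_sums (Γ : Ribbon k) (n : Fin k → ℤ) (t : Fin k → ZMod 2)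
    (ht : ∀ e, ((n e : ℤ) : ZMod 2) = t e) :
    (∑ S : Finset (Fin k), (-1 : ℤ) ^ (nS n S).natAbs * (Γ.cpoly S).eval 4 = 
      4 ^ Γ.verts * ZZ (BF Γ t)) ∧
    (∑ S : Finset (Fin k), (-1 : ℤ) ^ (nS n S).natAbs * (Γ.cpoly S).eval 4) * 
      (∑ S : Finset (Fin k), ((-1 : ℤ) ^ (nS n S).natAbs * nS n S ^ 2) * (Γ.cpoly S).eval 4) - 
      (∑ S : Finset (Fin k), ((-1 : ℤ) ^ (nS n S).natAbs * nS n S) * (Γ.cpoly S).eval 4) ^ 2 = 
        16 ^ Γ.verts * QF (qq Γ t) n := by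
  have e0 := sum_four Γ (fun S => (-1 : ℤ) ^ (nS n S).natAbs)
  have e1 := sum_four Γ (fun S => (-1 : ℤ) ^ (nS n S).natAbs * nS n S)
  have e2 := sum_four Γ (fun S => (-1 : ℤ) ^ (nS n S).natAbs * nS n S ^ 2)
  simp only [sign_eq Γ n t ht] at e0 e1 e2
  have f0 : ∑ x : Cyc Γ × Cyc Γ, sg (hh (BF Γ t) x) = ZZ (BF Γ t) := rfl
  rw [f0] at e0
  obtain ⟨N, hN⟩ : ∃ N, N = ∑ e, n e := ⟨_, rfl⟩
  obtain ⟨s1, hs1⟩ : ∃ s, s = ∑ e, n e * V1 (BF Γ t) (el Γ e) := ⟨_, rfl⟩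
  obtain ⟨s2, hs2⟩ : ∃ s, s = ∑ e, ∑ f, n e * n f * V2 (BF Γ t) (el Γ e) (el Γ f) := ⟨_, rfl⟩
  have g1 := sum_z Γ n t
  have g2 := sum_zz Γ n t
  rw [← hs1] at g1
  rw [← hs2] at g2
  have f1 : ∑ x : Cyc Γ × Cyc Γ, sg (hh (BF Γ t) x) * nS n (sup2 Γ x) = 
      N * ZZ (BF Γ t) - s1 := by
    rw [← g1, ← f0, Finset.mul_sum, ← Finset.sum_sub_distrib]
    refine Finset.sum_congr rfl fun x _ => ?_
    rw [nS_sup2, ← hN]; ring
  have f2 : ∑ x : Cyc Γ × Cyc Γ, sg (hh (BF Γ t) x) * nS n (sup2 Γ x) ^ 2 = 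
      N ^ 2 * ZZ (BF Γ t) - 2 * N * s1 + s2 := by
    rw [← g1, ← g2, ← f0, Finset.mul_sum, Finset.mul_sum, ← Finset.sum_sub_distrib, 
      ← Finset.sum_add_distrib]
    refine Finset.sum_congr rfl fun x _ => ?_
    rw [nS_sup2, ← hN]; ring
  rw [f1] at e1
  rw [f2] at e2
  refine ⟨e0, ?_⟩
  rw [e0, e1, e2]
  have hq : QF (qq Γ t) n = ZZ (BF Γ t) * s2 - s1 ^ 2 := by
    unfold QF qq
    rw [hs1, hs2, sq, Finset.sum_mul_sum, Finset.mul_sum, ← Finset.sum_sub_distrib]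
    refine Finset.sum_congr rfl fun e _ => ?_
    rw [Finset.mul_sum, ← Finset.sum_sub_distrib]
    refine Finset.sum_congr rfl fun f _ => ?_
    ring
  rw [hq]
  have h16 : (16 : ℤ) ^ Γ.verts = 4 ^ Γ.verts * 4 ^ Γ.verts := by
    rw [← mul_pow]; norm_num
  rw [h16]
  ring

/-- the state sum -/
noncomputable def FF (Γ : Ribbon k) (n : Fin k → ℤ) : ℤ[T;T⁻¹] :=
  ∑ S : Finset (Fin k), ((-1 : ℤ[T;T⁻¹]) ^ (nS n S).natAbs * T (4 * nS n S)) * 
    Polynomial.aeval dsq (Γ.cpoly S)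

theorem neg_pow_C (j : ℕ) : (-1 : ℤ[T;T⁻¹]) ^ j = C ((-1 : ℤ) ^ j) := by
  rw [map_pow, map_neg, map_one]

/-- a constant of the parity class -/
noncomputable def KK (Γ : Ribbon k) (t : Fin k → ZMod 2) : ℤ :=
  ∑ S : Finset (Fin k), sg (∑ e ∈ S, t e) * moment 2 (Polynomial.aeval dsq (Γ.cpoly S))

theorem kap_FF (Γ : Ribbon k) (n : Fin k → ℤ) (t : Fin k → ZMod 2)
    (ht : ∀ e, ((n e : ℤ) : ZMod 2) = t e) :
    kap (FF Γ n) = 16 * (16 ^ Γ.verts * QF (qq Γ t) n) + 4 ^ Γ.verts * ZZ (BF Γ t) * KK Γ t := by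
  obtain ⟨h0, h1⟩ := three_sums Γ n t ht
  have m0 : moment 0 (FF Γ n) = 
      ∑ S : Finset (Fin k), (-1 : ℤ) ^ (nS n S).natAbs * (Γ.cpoly S).eval 4 := by
    unfold FF
    rw [m_sum]
    refine Finset.sum_congr rfl fun S _ => ?_
    rw [neg_pow_C, mul_assoc, moment_C_mul, T_mul0, aeval0]
  have m1 : moment 1 (FF Γ n) = 
      4 * ∑ S : Finset (Fin k), ((-1 : ℤ) ^ (nS n S).natAbs * nS n S) * (Γ.cpoly S).eval 4 := by
    unfold FF
    rw [m_sum, Finset.mul_sum]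
    refine Finset.sum_congr rfl fun S _ => ?_
    rw [neg_pow_C, mul_assoc, moment_C_mul, T_mul1, aeval0, aeval1]
    ring
  have m2 : moment 2 (FF Γ n) = 
      16 * (∑ S : Finset (Fin k), ((-1 : ℤ) ^ (nS n S).natAbs * nS n S ^ 2) * (Γ.cpoly S).eval 4) + 
        KK Γ t := by
    unfold FF KK
    rw [m_sum, Finset.mul_sum, ← Finset.sum_add_distrib]
    refine Finset.sum_congr rfl fun S _ => ?_
    rw [neg_pow_C, mul_assoc, moment_C_mul, T_mul2, aeval0, aeval1, ← cast_nS n t ht S, ← sign_int]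
    ring
  unfold kap
  rw [m0, m1, m2, mul_add]
  rw [h0] at h1 ⊢
  linear_combination 16 * h1

theorem FF_eq (Γ : Ribbon k) (hΓ : Γ.Planar) (hk : 0 < k) (n : Fin k → ℤ) :
    FF Γ n = C ((-1 : ℤ) ^ (nS n univ).natAbs) * T (3 * nS n univ) * 
      ((-T 2 - T (-2)) ^ (1 + (Γ.verts + k)) * (Γ.link n).std.bracket) := by
  have h := identity Γ hΓ hk n
  unfold FF dsq
  rw [h, neg_pow_C]
  ring

/-- the constant on the right -/
noncomputable def RR (Γ : Ribbon k) (a b : ℤ) : ℤ :=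
  moment 0 ((-T 2 - T (-2) : ℤ[T;T⁻¹]) ^ (1 + (Γ.verts + k))) ^ 2 * a + 
    b * kap ((-T 2 - T (-2) : ℤ[T;T⁻¹]) ^ (1 + (Γ.verts + k)))

theorem key (Γ : Ribbon k) (hΓ : Γ.Planar) (hk : 0 < k) (n : Fin k → ℤ) (t : Fin k → ZMod 2)
    (ht : ∀ e, ((n e : ℤ) : ZMod 2) = t e) :
    (16 * 16 ^ Γ.verts) * QF (qq Γ t) n = 
      RR Γ (kap (Γ.link n).std.bracket) (moment 0 (Γ.link n).std.bracket ^ 2) - 
        4 ^ Γ.verts * ZZ (BF Γ t) * KK Γ t := by
  have h1 := kap_FF Γ n t ht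
  rw [FF_eq Γ hΓ hk n, kap_unit _ _ (by rw [← pow_mul, mul_comm, pow_mul]; simp), kap_mul] at h1
  unfold RR
  linarith

theorem fPoly_inv (Γ : Ribbon k) (hk : 0 < k) (n : Fin k → ℤ) (D : Diagram (Ribbon.Pt n)) 
    (hD : Orients D (Γ.link n)) : kap D.fPoly = kap (Γ.link n).std.bracket ∧ 
      moment 0 D.fPoly ^ 2 = moment 0 (Γ.link n).std.bracket ^ 2 := by
  obtain ⟨ε, m, hε, hf⟩ := fPoly_orients hk Γ n D hD
  have h : ε ^ 2 = 1 := by rcases hε with rfl | rfl <;> norm_num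
  rw [hf, kap_unit _ _ h, m0_unit _ _ h]
  exact ⟨rfl, rfl⟩

theorem pos_of_planar (Γ : Ribbon k) (hΓ : Γ.Planar) : 0 < k := by
  by_contra h
  have hk : k = 0 := by omega
  subst hk
  have h1 := hΓ.1
  unfold Ribbon.comps at h1
  have : IsEmpty (Quot (fun x y : Fin 0 × Bool => Γ.rot x = y ∨ (x.1 ∈ Finset.univ ∧ y = flip x))) := by
    refine ⟨fun q => ?_⟩
    induction q using Quot.ind with
    | mk a => exact a.1.elim0
  rw [Nat.card_of_isEmpty] at h1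
  exact absurd h1 (by norm_num)

open Classical in
/-- the count: prescribed invariants -/
theorem count_kap (Γ : Ribbon k) (hΓ : Γ.Planar) (hv : Γ.verts ≤ k) (F : Finset (Fin k))
    (hF : Fᶜ.card + Γ.comps Fᶜ = Γ.verts) (a b : ℤ) (A : Fin k → Finset ℤ) (M : ℕ)
    (hM : ∀ e ∈ F, ∀ (r : ZMod 2), #{x ∈ A e | ((x : ℤ) : ZMod 2) = r} = 0 ∨ 
      M ≤ #{x ∈ A e | ((x : ℤ) : ZMod 2) = r}) :
    M * #{n ∈ Fintype.piFinset A | kap (Γ.link n).std.bracket = a ∧ 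
      moment 0 (Γ.link n).std.bracket ^ 2 = b} ≤ 2 * ∏ e, (A e).card := by
  have hk := pos_of_planar Γ hΓ
  set Bad := ({n ∈ Fintype.piFinset A | kap (Γ.link n).std.bracket = a ∧ 
      moment 0 (Γ.link n).std.bracket ^ 2 = b}) with hBad
  have h1 := Finset.card_eq_sum_card_fiberwise (s := Bad) (t := (Finset.univ : Finset (Fin k → ZMod 2)))
    (f := fun n e => ((n e : ℤ) : ZMod 2)) (fun n _ => Finset.mem_coe.2 (Finset.mem_univ _))
  have h2 : ∀ t : Fin k → ZMod 2, M * #{n ∈ Bad | (fun e => ((n e : ℤ) : ZMod 2)) = t} ≤ 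
      2 * ∏ e, #{x ∈ A e | ((x : ℤ) : ZMod 2) = t e} := by
    intro t
    have hsub : {n ∈ Bad | (fun e => ((n e : ℤ) : ZMod 2)) = t} ⊆ 
        {n ∈ Fintype.piFinset (fun e => {x ∈ A e | ((x : ℤ) : ZMod 2) = t e}) | 
          QF (qq Γ t) n = (RR Γ a b - 4 ^ Γ.verts * ZZ (BF Γ t) * KK Γ t) / (16 * 16 ^ Γ.verts)} := by
      intro n hn
      rw [Finset.mem_filter, hBad, Finset.mem_filter, Fintype.mem_piFinset] at hn
      obtain ⟨⟨hA, ha, hb⟩, ht⟩ := hn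
      have ht' : ∀ e, ((n e : ℤ) : ZMod 2) = t e := fun e => congrFun ht e
      rw [Finset.mem_filter, Fintype.mem_piFinset]
      refine ⟨fun e => Finset.mem_filter.2 ⟨hA e, ht' e⟩, ?_⟩
      have h := key Γ hΓ hk n t ht'
      rw [ha, hb] at h
      exact Int.eq_ediv_of_mul_eq_right (by positivity) h
    by_cases hz : ∃ e, #{x ∈ A e | ((x : ℤ) : ZMod 2) = t e} = 0
    · obtain ⟨e, he⟩ := hz
      have : {n ∈ Bad | (fun e => ((n e : ℤ) : ZMod 2)) = t} = ∅ := by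
        rw [Finset.eq_empty_iff_forall_notMem]
        intro n hn
        have := (Fintype.mem_piFinset.1 (Finset.mem_filter.1 (hsub hn)).1) e
        rw [Finset.card_eq_zero] at he
        rw [he] at this
        exact absurd this (Finset.notMem_empty _)
      rw [this]
      simp
    · push Not at hz
      refine le_trans (Nat.mul_le_mul_left _ (Finset.card_le_card hsub)) ?_
      exact count_quad (qq Γ t) (qq_symm Γ t) F (qq_ne Γ hΓ.1 hv F hF t) _ _ M 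
        (fun e he => (hM e he (t e)).resolve_left (hz e))
  rw [h1, Finset.mul_sum]
  refine (Finset.sum_le_sum fun t _ => h2 t).trans (le_of_eq ?_)
  rw [← Finset.mul_sum]
  congr 1
  have h3 : ∀ e, (A e).card = ∑ r : ZMod 2, #{x ∈ A e | ((x : ℤ) : ZMod 2) = r} := by
    intro e
    exact Finset.card_eq_sum_card_fiberwise (fun x _ => Finset.mem_coe.2 (Finset.mem_univ _))
  rw [Finset.prod_congr rfl (fun e _ => h3 e), Finset.prod_univ_sum]
  rw [Fintype.piFinset_univ]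

end Pool.Agent.H953R3.Q2
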