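import Pool.Agent.H953R3.Q2.Fin

set_option autoImplicit false

/-! Even and odd elements, boxes, pairs of diagrams. -/

namespace Pool.Agent.H953R3.Q2

open Finset LaurentPolynomial Pool.Agent.H891R2.Jones Pool.Agent.H891R2.MT Pool.Agent.H832R3.VJ

variable {k : ℕ}

theorem cast_zero_iff (x : ℤ) : ((x : ℤ) : ZMod 2) = 0 ↔ Even x := by
  rw [CharP.intCast_eq_zero_iff (ZMod 2) 2 x, even_iff_two_dvd]
  norm_num

theorem cast_one_iff (x : ℤ) : ((x : ℤ) : ZMod 2) = 1 ↔ Odd x := by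
  rw [← Int.not_even_iff_odd, ← cast_zero_iff]
  generalize ((x : ℤ) : ZMod 2) = z
  revert z
  decide

open Classical in
/-- For `e ∈ F`, the even elements of the set `A e` are none or at least `M`, and so are the odd
elements. -/
def Balanced (M : ℕ) (F : Finset (Fin k)) (A : Fin k → Finset ℤ) : Prop :=
  ∀ e ∈ F, (#{x ∈ A e | Even x} = 0 ∨ M ≤ #{x ∈ A e | Even x}) ∧
    (#{x ∈ A e | Odd x} = 0 ∨ M ≤ #{x ∈ A e | Odd x})

open Classical in
theorem Balanced.zmod {M : ℕ} {F : Finset (Fin k)} {A : Fin k → Finset ℤ} (h : Balanced M F A) 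
    (e : Fin k) (he : e ∈ F) (r : ZMod 2) :
    #{x ∈ A e | ((x : ℤ) : ZMod 2) = r} = 0 ∨ M ≤ #{x ∈ A e | ((x : ℤ) : ZMod 2) = r} := by
  have hr : r = 0 ∨ r = 1 := by revert r; decide
  rcases hr with rfl | rfl
  · have : {x ∈ A e | ((x : ℤ) : ZMod 2) = 0} = {x ∈ A e | Even x} :=
      Finset.filter_congr fun x _ => cast_zero_iff x
    rw [this]
    exact (h e he).1
  · have : {x ∈ A e | ((x : ℤ) : ZMod 2) = 1} = {x ∈ A e | Odd x} :=
      Finset.filter_congr fun x _ => cast_one_iff x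
    rw [this]
    exact (h e he).2

/-- the box is balanced -/
theorem balanced_box (N : ℕ) (F : Finset (Fin k)) : 
    Balanced N F (fun _ : Fin k => Finset.Icc (-(N : ℤ)) N) := by
  classical
  intro e _
  constructor
  · right
    have h : (Finset.Icc (-((N : ℤ) / 2)) ((N : ℤ) / 2)).image (fun j => 2 * j) ⊆ 
        {x ∈ Finset.Icc (-(N : ℤ)) N | Even x} := by
      intro x hx
      rw [Finset.mem_image] at hx
      obtain ⟨j, hj, rfl⟩ := hx
      rw [Finset.mem_Icc] at hj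
      rw [Finset.mem_filter, Finset.mem_Icc]
      refine ⟨by omega, even_two_mul j⟩
    have h2 := Finset.card_le_card h
    rw [Finset.card_image_of_injective _ (fun a b h => by simpa using h), Int.card_Icc] at h2
    refine le_trans ?_ h2
    omega
  · right
    have h : (Finset.Icc (-(((N : ℤ) + 1) / 2)) (((N : ℤ) - 1) / 2)).image (fun j => 2 * j + 1) ⊆ 
        {x ∈ Finset.Icc (-(N : ℤ)) N | Odd x} := by
      intro x hx
      rw [Finset.mem_image] at hx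
      obtain ⟨j, hj, rfl⟩ := hx
      rw [Finset.mem_Icc] at hj
      rw [Finset.mem_filter, Finset.mem_Icc]
      refine ⟨by omega, odd_two_mul_add_one j⟩
    have h2 := Finset.card_le_card h
    rw [Finset.card_image_of_injective _ (fun a b h => by simpa using h), Int.card_Icc] at h2
    refine le_trans ?_ h2
    omega

/-- two diagrams with the same moments -/
def Same (f g : ℤ[T;T⁻¹]) : Prop := ∀ j ≤ 2, moment j f = moment j g

theorem Same.inv {f g : ℤ[T;T⁻¹]} (h : Same f g) : 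
    kap f = kap g ∧ moment 0 f ^ 2 = moment 0 g ^ 2 := by
  unfold kap
  rw [h 0 (by norm_num), h 1 (by norm_num), h 2 (by norm_num)]
  exact ⟨rfl, rfl⟩

theorem same_of_dvd {f g : ℤ[T;T⁻¹]} (h : (T 1 - 1 : ℤ[T;T⁻¹]) ^ 3 ∣ f - g) : Same f g := by
  intro j hj
  have h1 : (T 1 - 1 : ℤ[T;T⁻¹]) ^ (j + 1) ∣ f - g := (pow_dvd_pow _ (by omega)).trans h
  have h2 := moment_of_dvd j (f - g) h1
  rw [moment_sub] at h2
  linarith

theorem same_of_not_separated {X Y : Dia} (h : ¬ Separated 2 X Y) : Same X.D.fPoly Y.D.fPoly := by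
  intro j hj
  by_contra hne
  exact h ⟨j, hj, fun X => moment j X.D.fPoly, isVassiliev_moment j, hne⟩

theorem same_of {P : Type} {hP : Finite P} {D : Diagram P} {Y : Dia}
    (h : ¬ Separated 2 ⟨P, hP, D⟩ Y) : Same D.fPoly Y.D.fPoly :=
  same_of_not_separated (X := ⟨P, hP, D⟩) (Y := Y) h

theorem same_of' {P P' : Type} {hP : Finite P} {hP' : Finite P'} {D : Diagram P} {D' : Diagram P'}
    (h : ¬ Separated 2 ⟨P, hP, D⟩ ⟨P', hP', D'⟩) : Same D.fPoly D'.fPoly :=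
  same_of_not_separated (X := ⟨P, hP, D⟩) (Y := ⟨P', hP', D'⟩) h

open Classical in
/-- the count: Vassiliev invariants -/
theorem count_sep (Γ : Ribbon k) (hΓ : Γ.Planar) (hv : Γ.verts ≤ k) (F : Finset (Fin k))
    (hF : Fᶜ.card + Γ.comps Fᶜ = Γ.verts) (X : Dia) (M : ℕ)
    (A : Fin k → Finset ℤ) (hA : Balanced M F A) :
    M * #{n ∈ Fintype.piFinset A | ∃ D : Diagram (Ribbon.Pt n), Orients D (Γ.link n) ∧ 
      D.IsClosed ∧ ¬ Separated 2 ⟨_, inferInstance, D⟩ X} ≤ 2 * ∏ e, (A e).card := by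
  refine le_trans (Nat.mul_le_mul_left _ (Finset.card_le_card ?_)) 
    (count_kap Γ hΓ hv F hF (kap X.D.fPoly) (moment 0 X.D.fPoly ^ 2) A M hA.zmod)
  intro n hn
  rw [Finset.mem_filter] at hn ⊢
  obtain ⟨hn, D, hD, -, h⟩ := hn
  have h0 : Same D.fPoly X.D.fPoly := same_of h
  have h1 := h0.inv
  have h2 := fPoly_inv Γ (pos_of_planar Γ hΓ) n D hD
  exact ⟨hn, h2.1 ▸ h1.1, h2.2 ▸ h1.2⟩

open Classical in
/-- the general count -/
theorem count_same (Γ : Ribbon k) (hΓ : Γ.Planar) (hv : Γ.verts ≤ k) (F : Finset (Fin k))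
    (hF : Fᶜ.card + Γ.comps Fᶜ = Γ.verts) (f : ℤ[T;T⁻¹]) (M : ℕ)
    (A : Fin k → Finset ℤ) (hA : Balanced M F A) :
    M * #{n ∈ Fintype.piFinset A | ∃ D : Diagram (Ribbon.Pt n), Orients D (Γ.link n) ∧ 
      Same D.fPoly f} ≤ 2 * ∏ e, (A e).card := by
  refine le_trans (Nat.mul_le_mul_left _ (Finset.card_le_card ?_)) 
    (count_kap Γ hΓ hv F hF (kap f) (moment 0 f ^ 2) A M hA.zmod)
  intro n hn
  rw [Finset.mem_filter] at hn ⊢
  obtain ⟨hn, D, hD, h⟩ := hn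
  have h1 := h.inv
  have h2 := fPoly_inv Γ (pos_of_planar Γ hΓ) n D hD
  exact ⟨hn, h2.1 ▸ h1.1, h2.2 ▸ h1.2⟩

open Classical in
theorem count_dvd (Γ : Ribbon k) (hΓ : Γ.Planar) (hv : Γ.verts ≤ k) (F : Finset (Fin k))
    (hF : Fᶜ.card + Γ.comps Fᶜ = Γ.verts) (f : ℤ[T;T⁻¹]) (M : ℕ)
    (A : Fin k → Finset ℤ) (hA : Balanced M F A) :
    M * #{n ∈ Fintype.piFinset A | ∃ D : Diagram (Ribbon.Pt n), Orients D (Γ.link n) ∧ 
      D.IsClosed ∧ (T 1 - 1 : ℤ[T;T⁻¹]) ^ 3 ∣ D.fPoly - f} ≤ 2 * ∏ e, (A e).card := by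
  refine le_trans (Nat.mul_le_mul_left _ (Finset.card_le_card ?_)) 
    (count_same Γ hΓ hv F hF f M A hA)
  intro n hn
  rw [Finset.mem_filter] at hn ⊢
  obtain ⟨hn, D, hD, -, h⟩ := hn
  exact ⟨hn, D, hD, same_of_dvd h⟩

open Classical in
theorem count_eq (Γ : Ribbon k) (hΓ : Γ.Planar) (hv : Γ.verts ≤ k) (F : Finset (Fin k))
    (hF : Fᶜ.card + Γ.comps Fᶜ = Γ.verts) (f : ℤ[T;T⁻¹]) (M : ℕ)
    (A : Fin k → Finset ℤ) (hA : Balanced M F A) :
    M * #{n ∈ Fintype.piFinset A | ∃ D : Diagram (Ribbon.Pt n), Orients D (Γ.link n) ∧ 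
      D.IsClosed ∧ D.fPoly = f} ≤ 2 * ∏ e, (A e).card := by
  refine le_trans (Nat.mul_le_mul_left _ (Finset.card_le_card ?_)) 
    (count_same Γ hΓ hv F hF f M A hA)
  intro n hn
  rw [Finset.mem_filter] at hn ⊢
  obtain ⟨hn, D, hD, -, h⟩ := hn
  exact ⟨hn, D, hD, fun j _ => by rw [h]⟩

open Classical in
/-- pairs of diagrams -/
theorem count_pairs {k' : ℕ} (Γ : Ribbon k) (hΓ : Γ.Planar) (hv : Γ.verts ≤ k) 
    (F : Finset (Fin k)) (hF : Fᶜ.card + Γ.comps Fᶜ = Γ.verts) (Γ' : Ribbon k') 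
    (hk' : 0 < k') (M : ℕ) (A : Fin k → Finset ℤ) (hA : Balanced M F A) (A' : Fin k' → Finset ℤ) :
    M * #{p ∈ Fintype.piFinset A ×ˢ Fintype.piFinset A' | 
      ∃ (D : Diagram (Ribbon.Pt p.1)) (D' : Diagram (Ribbon.Pt p.2)), Orients D (Γ.link p.1) ∧ 
        D.IsClosed ∧ Orients D' (Γ'.link p.2) ∧ D'.IsClosed ∧ 
        ¬ Separated 2 ⟨_, inferInstance, D⟩ ⟨_, inferInstance, D'⟩} ≤ 
      2 * ((∏ e, (A e).card) * ∏ e, (A' e).card) := by
  set Bad := ({p ∈ Fintype.piFinset A ×ˢ Fintype.piFinset A' | 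
      ∃ (D : Diagram (Ribbon.Pt p.1)) (D' : Diagram (Ribbon.Pt p.2)), Orients D (Γ.link p.1) ∧ 
        D.IsClosed ∧ Orients D' (Γ'.link p.2) ∧ D'.IsClosed ∧ 
        ¬ Separated 2 ⟨_, inferInstance, D⟩ ⟨_, inferInstance, D'⟩}) with hBad
  have hmem : ∀ p ∈ Bad, p.1 ∈ Fintype.piFinset A ∧ p.2 ∈ Fintype.piFinset A' ∧
      kap (Γ.link p.1).std.bracket = kap (Γ'.link p.2).std.bracket ∧ 
      moment 0 (Γ.link p.1).std.bracket ^ 2 = moment 0 (Γ'.link p.2).std.bracket ^ 2 := by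
    intro p hp
    rw [hBad, Finset.mem_filter, Finset.mem_product] at hp
    obtain ⟨⟨hp1, hp2⟩, D, D', hD, -, hD', -, h⟩ := hp
    have h0 : Same D.fPoly D'.fPoly := same_of' h
    have h4 := h0.inv
    have h5 := fPoly_inv Γ (pos_of_planar Γ hΓ) p.1 D hD
    have h6 := fPoly_inv Γ' hk' p.2 D' hD'
    exact ⟨hp1, hp2, by rw [← h5.1, h4.1, h6.1], by rw [← h5.2, h4.2, h6.2]⟩
  clear_value Bad
  have h1 := Finset.card_eq_sum_card_fiberwise (s := Bad) (t := Fintype.piFinset A') 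
    (f := Prod.snd) (fun p hp => (hmem p hp).2.1)
  have h2 : ∀ n' ∈ Fintype.piFinset A', M * #{p ∈ Bad | p.2 = n'} ≤ 2 * ∏ e, (A e).card := by
    intro n' _
    refine le_trans (Nat.mul_le_mul_left _ ?_) (count_kap Γ hΓ hv F hF 
      (kap (Γ'.link n').std.bracket) (moment 0 (Γ'.link n').std.bracket ^ 2) A M hA.zmod)
    refine Finset.card_le_card_of_injOn Prod.fst ?_ ?_
    · intro p hp
      rw [Finset.mem_coe, Finset.mem_filter] at hp
      obtain ⟨hp, h3⟩ := hp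
      subst h3
      obtain ⟨a1, -, a2, a3⟩ := hmem p hp
      rw [Finset.mem_coe, Finset.mem_filter]
      exact ⟨a1, a2, a3⟩
    · intro p hp q hq h
      rw [Finset.mem_coe, Finset.mem_filter] at hp hq
      exact Prod.ext h (hp.2.trans hq.2.symm)
  rw [h1, Finset.mul_sum]
  refine (Finset.sum_le_sum h2).trans (le_of_eq ?_)
  rw [Finset.sum_const, smul_eq_mul, Fintype.card_piFinset]
  ring

open Classical in
/-- the count in a cube -/
theorem count_cube (_Γ : Ribbon k) (P : (Fin k → ℤ) → Prop) (N : ℕ)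
    (h : ∀ A : Fin k → Finset ℤ, Balanced N Finset.univ A → 
      N * #{n ∈ Fintype.piFinset A | P n} ≤ 2 * ∏ e, (A e).card) : 
    N * {n : Fin k → ℤ | (∀ e, |n e| ≤ N) ∧ P n}.ncard ≤ 2 * (2 * N + 1) ^ k := by
  have h := h _ (balanced_box N Finset.univ)
  have hc : ∏ e : Fin k, (Finset.Icc (-(N : ℤ)) N).card = (2 * N + 1) ^ k := by
    rw [Finset.prod_const, Finset.card_univ, Fintype.card_fin, Int.card_Icc]
    congr 1
    omega
  rw [hc] at h
  have hset : {n : Fin k → ℤ | (∀ e, |n e| ≤ N) ∧ P n} =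
    (({n ∈ Fintype.piFinset (fun _ : Fin k => Finset.Icc (-(N : ℤ)) N) | P n} : 
      Finset (Fin k → ℤ)) : Set (Fin k → ℤ)) := by
    ext n
    simp only [Set.mem_ofPred_eq, Finset.coe_filter, Fintype.mem_piFinset, Finset.mem_Icc, abs_le]
  rw [hset, Set.ncard_coe_finset]
  exact h

theorem empty_forest (Γ : Ribbon k) : 
    ((Finset.univ : Finset (Fin k))ᶜ).card + Γ.comps (Finset.univ)ᶜ = Γ.verts := by
  rw [Finset.compl_univ, Finset.card_empty, zero_add]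
  exact comps_empty Γ

end Pool.Agent.H953R3.Q2
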