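import Pool.Agent.H891R2.MT.T2
import Pool.Agent.H953R3.Q2.Cyc

set_option autoImplicit false

/-! The intersection form on the cycle space of a ribbon graph and the number of boundary curves. -/

namespace Pool.Agent.H953R3.Q2

open Finset Pool.Agent.H891R2.MT

variable {k : ℕ}

/-- the jump of a function on the darts -/
def jump (Γ : Ribbon k) (γ : Fin k × Bool → ZMod 2) (d : Fin k × Bool) : ZMod 2 :=
  γ d + γ (Γ.rot.symm d)

theorem sum_darts (F : Fin k × Bool → ZMod 2) : ∑ d, F d = ∑ e, (F (e, false) + F (e, true)) := by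
  rw [Fintype.sum_prod_type]
  refine Finset.sum_congr rfl fun e _ => ?_
  rw [Fintype.sum_bool, add_comm]

theorem pr_darts (x : Fin k → ZMod 2) (f : Fin k × Bool → ZMod 2) : pr x f = ∑ d, x d.1 * f d := by
  rw [sum_darts]
  unfold pr
  exact Finset.sum_congr rfl fun e _ => by ring

theorem sum_rot (Γ : Ribbon k) (F : Fin k × Bool → ZMod 2) : ∑ d, F (Γ.rot d) = ∑ d, F d :=
  Equiv.sum_comp Γ.rot F

theorem two0 (x : ZMod 2) : x + x = 0 := CharTwo.add_self_eq_zero x

/-- duality for bilinear forms -/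
theorem solve2 {C C' : Type} [AddCommGroup C] [Fintype C] [AddCommGroup C'] [Fintype C']
    (B : C →+ C' →+ ZMod 2) (φ : C' →+ ZMod 2) (h : ∀ b, (∀ u, B u b = 0) → φ b = 0) :
    ∃ u, ∀ b, B u b = φ b := by
  by_contra hcon
  push Not at hcon
  have h1 : ∑ u : C, ∑ b : C', sg (B u b + φ b) = 0 := by
    refine Finset.sum_eq_zero fun u _ => ?_
    obtain ⟨b, hb⟩ := hcon u
    have := sum_char (B u + φ) b (by
      rw [AddMonoidHom.add_apply]
      intro h0
      apply hb
      have := two_eq (φ b)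
      linear_combination h0 - this)
    simpa using this
  rw [Finset.sum_comm] at h1
  have h2 : 0 < ∑ b : C', ∑ u : C, sg (B u b + φ b) := by
    have e : ∀ b : C', ∑ u : C, sg (B u b + φ b) = sg (φ b) * ∑ u : C, sg (B.flip b u) := by
      intro b
      rw [Finset.mul_sum]
      refine Finset.sum_congr rfl fun u _ => ?_
      rw [sg_add, AddMonoidHom.flip_apply, mul_comm]
    refine Finset.sum_pos' ?_ ⟨0, Finset.mem_univ _, ?_⟩
    · intro b _
      rw [e]
      by_cases c1 : ∃ a, B.flip b a ≠ 0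
      · obtain ⟨a, ha⟩ := c1
        rw [sum_char _ a ha]; simp
      push Not at c1
      rw [h b (fun u => by rw [← AddMonoidHom.flip_apply]; exact c1 u), sg_zero, one_mul]
      exact sum_char_nonneg _
    · rw [e]
      simp only [map_zero, AddMonoidHom.zero_apply, sg_zero, one_mul, Finset.sum_const, nsmul_eq_mul,
        mul_one]
      exact_mod_cast Finset.card_pos.2 ⟨0, Finset.mem_univ _⟩
  omega

/-- the pairing of functions on darts -/
def JB (Γ : Ribbon k) : (Fin k × Bool → ZMod 2) →+ (Fin k × Bool → ZMod 2) →+ ZMod 2 :=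
  AddMonoidHom.mk' (fun γ => AddMonoidHom.mk' (fun h => ∑ d, h d * jump Γ γ d) (by
    intro b c
    rw [← Finset.sum_add_distrib]
    refine Finset.sum_congr rfl fun e _ => ?_
    rw [Pi.add_apply]; ring)) (by
    intro b c
    refine AddMonoidHom.ext fun a => ?_
    show ∑ d, a d * jump Γ (b + c) d = ∑ d, a d * jump Γ b d + ∑ d, a d * jump Γ c d
    rw [← Finset.sum_add_distrib]
    refine Finset.sum_congr rfl fun e _ => ?_
    unfold jump
    rw [Pi.add_apply, Pi.add_apply]; ring)

theorem exists_pot (Γ : Ribbon k) (x : Cyc Γ) : 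
    ∃ γ : Fin k × Bool → ZMod 2, ∀ d, jump Γ γ d = x.1 d.1 := by
  classical
  obtain ⟨γ, hγ⟩ := solve2 (JB Γ) (AddMonoidHom.mk' (fun h => pr x.1 h) 
    (fun f g => pr_add_right x.1 f g)) (by
      intro h hh
      have hinv : h ∈ InvG Γ := by
        intro d
        have h1 : ∑ d', h d' * jump Γ (Pi.single d 1) d' = 0 := hh (Pi.single d 1)
        have h2 : ∑ d', h d' * jump Γ (Pi.single d 1) d' = h d + h (Γ.rot d) := by
          unfold jump
          simp only [mul_add, Finset.sum_add_distrib]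
          congr 1
          · rw [Finset.sum_eq_single d]
            · simp
            · intro b _ hb
              simp [hb]
            · intro hd; exact absurd (Finset.mem_univ _) hd
          · rw [Finset.sum_eq_single (Γ.rot d)]
            · simp
            · intro b _ hb
              have : Γ.rot.symm b ≠ d := fun h => hb (by rw [← h]; simp)
              simp [this]
            · intro hd; exact absurd (Finset.mem_univ _) hd
        rw [h2] at h1
        have := two0 (h d)
        linear_combination h1 - this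
      exact x.2 h hinv)
  refine ⟨γ, fun d => ?_⟩
  have h1 : ∑ d', (Pi.single d (1 : ZMod 2) : Fin k × Bool → ZMod 2) d' * jump Γ γ d' = 
      pr x.1 (Pi.single d 1) := hγ (Pi.single d 1)
  rw [pr_darts, Finset.sum_eq_single d, Finset.sum_eq_single d] at h1
  · simpa using h1
  · intro b _ hb
    simp [hb]
  · intro hd; exact absurd (Finset.mem_univ _) hd
  · intro b _ hb
    simp [hb]
  · intro hd; exact absurd (Finset.mem_univ _) hd

/-- a potential of a cycle -/
noncomputable def pot (Γ : Ribbon k) (x : Cyc Γ) : Fin k × Bool → ZMod 2 := 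
  Classical.choose (exists_pot Γ x)

theorem jump_pot (Γ : Ribbon k) (x : Cyc Γ) (d : Fin k × Bool) : jump Γ (pot Γ x) d = x.1 d.1 :=
  Classical.choose_spec (exists_pot Γ x) d

theorem inv_of_jump (Γ : Ribbon k) (γ : Fin k × Bool → ZMod 2) (h : ∀ d, jump Γ γ d = 0) : 
    γ ∈ InvG Γ := by
  intro d
  have h1 := h (Γ.rot d)
  unfold jump at h1
  rw [Equiv.symm_apply_apply] at h1
  have := two0 (γ d)
  linear_combination h1 - this

/-- the intersection form -/
noncomputable def om (Γ : Ribbon k) (x y : Cyc Γ) : ZMod 2 := pr y.1 (pot Γ x) + ∑ e, x.1 e * y.1 e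

theorem om_add_right (Γ : Ribbon k) (x y z : Cyc Γ) : om Γ x (y + z) = om Γ x y + om Γ x z := by
  unfold om
  have h1 : (y + z).1 = y.1 + z.1 := rfl
  rw [h1, pr_add_left]
  have : ∑ e, x.1 e * (y.1 + z.1) e = ∑ e, x.1 e * y.1 e + ∑ e, x.1 e * z.1 e := by
    rw [← Finset.sum_add_distrib]
    exact Finset.sum_congr rfl fun e _ => by rw [Pi.add_apply]; ring
  rw [this]; ring

theorem om_symm (Γ : Ribbon k) (x y : Cyc Γ) : om Γ x y = om Γ y x := by
  unfold om
  set γ := pot Γ x
  set η := pot Γ y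
  have hγ : ∀ d, γ (Γ.rot.symm d) = x.1 d.1 + γ d := by
    intro d
    have := jump_pot Γ x d
    unfold jump at this
    have h2 := two0 (γ d)
    linear_combination this - h2
  have hη : ∀ d, η (Γ.rot.symm d) = y.1 d.1 + η d := by
    intro d
    have := jump_pot Γ y d
    unfold jump at this
    have h2 := two0 (η d)
    linear_combination this - h2
  -- rotate
  have h1 : ∑ d, γ (Γ.rot.symm d) * η (Γ.rot.symm d) = ∑ d, γ d * η d :=
    Equiv.sum_comp Γ.rot.symm (fun d => γ d * η d)
  simp only [hγ, hη] at h1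
  have h2 : ∑ d : Fin k × Bool, (x.1 d.1 + γ d) * (y.1 d.1 + η d) = 
      ∑ d : Fin k × Bool, x.1 d.1 * y.1 d.1 + pr x.1 η + pr y.1 γ + ∑ d, γ d * η d := by
    rw [pr_darts, pr_darts, ← Finset.sum_add_distrib, ← Finset.sum_add_distrib, 
      ← Finset.sum_add_distrib]
    exact Finset.sum_congr rfl fun e _ => by ring
  have h3 : ∑ d : Fin k × Bool, x.1 d.1 * y.1 d.1 = 0 := by
    rw [sum_darts]
    exact Finset.sum_eq_zero fun e _ => two0 _
  rw [h2, h3] at h1
  have h4 : ∑ e, x.1 e * y.1 e = ∑ e, y.1 e * x.1 e := Finset.sum_congr rfl fun e _ => mul_comm _ _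
  rw [h4]
  have h5 := two0 (pr x.1 η)
  linear_combination h1 - h5

theorem om_self (Γ : Ribbon k) (x : Cyc Γ) : om Γ x x = 0 := by
  unfold om
  set γ := pot Γ x
  have hx : ∀ d : Fin k × Bool, x.1 d.1 = γ d + γ (Γ.rot.symm d) := fun d => (jump_pot Γ x d).symm
  -- integer lift
  let G : ZMod 2 → ℤ := fun a => if a = 0 then 0 else 1
  have hG : ∀ a b : ZMod 2, G (a + b) = G a + G b - 2 * (G a * G b) := by decide
  have hGc : ∀ a : ZMod 2, ((G a : ℤ) : ZMod 2) = a := by decide
  have h1 : ∑ d : Fin k × Bool, G (x.1 d.1) = 2 * ∑ e, G (x.1 e) := by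
    rw [Fintype.sum_prod_type, Finset.mul_sum]
    refine Finset.sum_congr rfl fun e _ => ?_
    rw [Fintype.sum_bool]; ring
  have h2 : ∑ d : Fin k × Bool, G (x.1 d.1) = 2 * ∑ d, G (γ d) - 
      2 * ∑ d, G (γ d) * G (γ (Γ.rot.symm d)) := by
    have e1 : ∑ d, G (γ (Γ.rot.symm d)) = ∑ d, G (γ d) := Equiv.sum_comp Γ.rot.symm (fun d => G (γ d))
    have e2 : ∀ d : Fin k × Bool, G (x.1 d.1) = 
        G (γ d) + G (γ (Γ.rot.symm d)) - 2 * (G (γ d) * G (γ (Γ.rot.symm d))) := fun d => by
      rw [hx d, hG]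
    simp only [e2, Finset.sum_sub_distrib, Finset.sum_add_distrib, e1, ← Finset.mul_sum]
    ring
  have h3 : ∑ e, G (x.1 e) = ∑ d, G (γ d) - ∑ d, G (γ d) * G (γ (Γ.rot.symm d)) := by linarith
  have h4 := congrArg (fun z : ℤ => (z : ZMod 2)) h3
  push_cast at h4
  simp only [hGc] at h4
  -- conclusion
  have h5 : pr x.1 γ = ∑ d, γ d + ∑ d, γ d * γ (Γ.rot.symm d) := by
    rw [pr_darts, ← Finset.sum_add_distrib]
    refine Finset.sum_congr rfl fun d _ => ?_
    rw [hx d]
    have := sq_eq (γ d)
    linear_combination this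
  have h6 : ∑ e, x.1 e * x.1 e = ∑ e, x.1 e := Finset.sum_congr rfl fun e _ => sq_eq _
  rw [h5, h6, h4]
  have h7 := two0 (∑ d, γ d)
  linear_combination h7

/-- the intersection form as a bilinear form -/
noncomputable def OM (Γ : Ribbon k) : Cyc Γ →+ Cyc Γ →+ ZMod 2 :=
  AddMonoidHom.mk' (fun a => AddMonoidHom.mk' (fun b => om Γ a b) (fun b c => om_add_right Γ a b c)) (by
    intro b c
    ext a
    show om Γ (b + c) a = om Γ b a + om Γ c a
    rw [om_symm, om_add_right, om_symm Γ a b, om_symm Γ a c])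

theorem OM_apply (Γ : Ribbon k) (a b : Cyc Γ) : OM Γ a b = om Γ a b := rfl

/-! the number of boundary curves -/

/-- toggling an edge changes the number of curves by one -/
theorem curves_parity (Γ : Ribbon k) (S : Finset (Fin k)) : 
    (-1 : ℤ) ^ (S.card + Γ.curves S) = (-1) ^ Γ.curves ∅ := by
  induction S using Finset.induction_on with
  | empty => simp
  | insert e S he ih =>
    rw [Finset.card_insert_of_notMem he, ← ih, T2.curves_cyc, T2.curves_cyc, T2.aS_insert S e he,
      mul_assoc]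
    have hne : ((e, false) : Fin k × Bool) ≠ (e, true) := by simp
    have h := T2.cyc_swap (T2.aS S * Γ.rot) (e, false) (e, true) hne
    by_cases hs : (T2.aS S * Γ.rot).SameCycle (e, false) (e, true)
    · rw [h.1 hs]
      have : S.card + 1 + (T2.cyc (T2.aS S * Γ.rot) + 1) = S.card + T2.cyc (T2.aS S * Γ.rot) + 2 := by ring
      rw [this, pow_add]; norm_num
    · rw [← h.2 hs]
      have : S.card + (T2.cyc (Equiv.swap ((e, false) : Fin k × Bool) (e, true) * 
          (T2.aS S * Γ.rot)) + 1) = 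
          S.card + 1 + T2.cyc (Equiv.swap ((e, false) : Fin k × Bool) (e, true) * (T2.aS S * Γ.rot)) := by ring
      rw [this]

theorem curves_empty (Γ : Ribbon k) : Γ.curves ∅ = Γ.verts := by
  rw [T2.curves_cyc]
  have h : T2.aS (∅ : Finset (Fin k)) = 1 := by
    ext1 d
    rw [T2.aS_apply]
    simp
  rw [h, one_mul]
  rfl

/-- functions which are constant on the curves -/
theorem card_curves (Γ : Ribbon k) (S : Finset (Fin k)) : 
    Nat.card {γ : Fin k × Bool → ZMod 2 // (∀ d, d.1 ∉ S → jump Γ γ d = 0) ∧ 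
      ∀ d, d.1 ∈ S → jump Γ γ d = γ (d.1, false) + γ (d.1, true)} = 2 ^ Γ.curves S := by
  rw [T2.curves_cyc]
  unfold T2.cyc
  rw [← card_resp]
  refine Nat.card_congr (Equiv.subtypeEquivRight fun γ => ?_)
  have two : ∀ a b : ZMod 2, a + b = 0 ↔ b = a := by decide
  have three : ∀ a b c : ZMod 2, a + b = a + c ↔ b = c := by decide
  have three' : ∀ a b c : ZMod 2, a + b = c + a ↔ b = c := by decide
  have key : ∀ d : Fin k × Bool, ((d.1 ∉ S → jump Γ γ d = 0) ∧ 
      (d.1 ∈ S → jump Γ γ d = γ (d.1, false) + γ (d.1, true))) ↔ 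
        γ (Γ.rot.symm d) = γ (T2.aS S d) := by
    intro d
    rw [T2.aS_apply]
    unfold jump
    by_cases hd : d.1 ∈ S
    · rw [if_pos hd]
      simp only [hd, not_true_eq_false, false_implies, true_implies, true_and]
      obtain ⟨e, b⟩ := d
      cases b
      · exact three _ _ _
      · exact three' _ _ _
    · rw [if_neg hd]
      simp only [hd, not_false_eq_true, true_implies, false_implies, and_true]
      exact two _ _
  constructor
  · rintro ⟨h1, h2⟩ x y rfl
    have := (key (Γ.rot x)).1 ⟨h1 _, h2 _⟩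
    rw [Equiv.symm_apply_apply] at this
    exact this
  · intro h
    have h' : ∀ d : Fin k × Bool, γ (Γ.rot.symm d) = γ (T2.aS S d) := fun d => 
      h (Γ.rot.symm d) _ (by rw [Equiv.Perm.mul_apply, Equiv.apply_symm_apply])
    exact ⟨fun d => ((key d).2 (h' d)).1, fun d => ((key d).2 (h' d)).2⟩

end Pool.Agent.H953R3.Q2
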