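import Pool.Agent.H953R3.Q2.Om

set_option autoImplicit false

/-! The number of boundary curves as a Gauss sum. -/

namespace Pool.Agent.H953R3.Q2

open Finset Pool.Agent.H891R2.MT

variable {k : ℕ}

/-- the element of `Cyc` given by the jumps of a function of `card_curves` -/
theorem jump_cyc (Γ : Ribbon k) (γ : Fin k × Bool → ZMod 2) (x : Fin k → ZMod 2)
    (h : ∀ d, jump Γ γ d = x d.1) : x ∈ Cyc Γ := by
  intro f hf
  rw [pr_darts]
  have h1 : ∀ d : Fin k × Bool, x d.1 * f d = γ d * f d + γ (Γ.rot.symm d) * f (Γ.rot.symm d) := by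
    intro d
    have h2 : f (Γ.rot.symm d) = f d := by
      have := hf (Γ.rot.symm d)
      rw [Equiv.apply_symm_apply] at this
      exact this.symm
    rw [← h d, h2]
    unfold jump; ring
  simp only [h1, Finset.sum_add_distrib]
  rw [Equiv.sum_comp Γ.rot.symm (fun d => γ d * f d)]
  exact two0 _

open Classical in
/-- the double sum of the intersection form -/
theorem gauss_curves (Γ : Ribbon k) (S : Finset (Fin k)) :
    (2 : ℤ) ^ (S.card + Γ.curves S) = 2 ^ Γ.verts * 
      ∑ x : Cyc Γ, ∑ y : Cyc Γ, (if (∀ e, e ∉ S → x.1 e = 0) ∧ (∀ e, e ∉ S → y.1 e = 0) then 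
        sg (om Γ x y) else 0) := by
  -- the pairs (x, u), x a cycle in S, u constant at the vertices
  let cond : Cyc Γ → InvG Γ → Prop := fun x u => ∀ e ∈ S, 
    (pot Γ x (e, false) + u.1 (e, false)) + (pot Γ x (e, true) + u.1 (e, true)) = x.1 e
  have h1 : (2 : ℤ) ^ Γ.curves S = ∑ x : Cyc Γ, ∑ u : InvG Γ, 
      (if (∀ e, e ∉ S → x.1 e = 0) ∧ cond x u then 1 else 0) := by
    have e1 : ∑ x : Cyc Γ, ∑ u : InvG Γ, (if (∀ e, e ∉ S → x.1 e = 0) ∧ cond x u then (1 : ℤ) else 0) = 
        (Nat.card {p : Cyc Γ × InvG Γ // (∀ e, e ∉ S → p.1.1 e = 0) ∧ cond p.1 p.2} : ℤ) := by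
      rw [← Fintype.sum_prod_type', Finset.sum_boole, Nat.card_eq_fintype_card, Fintype.card_subtype]
    rw [e1]
    have e2 : (2 : ℤ) ^ Γ.curves S = ((2 ^ Γ.curves S : ℕ) : ℤ) := by push_cast; rfl
    rw [e2, ← card_curves]
    congr 1
    symm
    refine Nat.card_congr ?_
    refine Equiv.ofBijective (fun p => ⟨pot Γ p.1.1 + p.1.2.1, ?_, ?_⟩) ⟨?_, ?_⟩
    · intro d hd
      have hj : jump Γ (pot Γ p.1.1 + p.1.2.1) d = p.1.1.1 d.1 := by
        have a1 := jump_pot Γ p.1.1 d
        have a2 : p.1.2.1 (Γ.rot.symm d) = p.1.2.1 d := by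
          have := p.1.2.2 (Γ.rot.symm d)
          rw [Equiv.apply_symm_apply] at this
          exact this.symm
        unfold jump at a1 ⊢
        rw [Pi.add_apply, Pi.add_apply, a2]
        have := two0 (p.1.2.1 d)
        linear_combination a1 + this
      rw [hj]
      exact p.2.1 d.1 hd
    · intro d hd
      have hj : jump Γ (pot Γ p.1.1 + p.1.2.1) d = p.1.1.1 d.1 := by
        have a1 := jump_pot Γ p.1.1 d
        have a2 : p.1.2.1 (Γ.rot.symm d) = p.1.2.1 d := by
          have := p.1.2.2 (Γ.rot.symm d)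
          rw [Equiv.apply_symm_apply] at this
          exact this.symm
        unfold jump at a1 ⊢
        rw [Pi.add_apply, Pi.add_apply, a2]
        have := two0 (p.1.2.1 d)
        linear_combination a1 + this
      rw [hj, ← p.2.2 d.1 hd]
      rfl
    · rintro ⟨⟨x, u⟩, hp⟩ ⟨⟨x', u'⟩, hp'⟩ h
      have h0 : pot Γ x + u.1 = pot Γ x' + u'.1 := congrArg Subtype.val h
      have hj : ∀ (x : Cyc Γ) (u : InvG Γ) d, jump Γ (pot Γ x + u.1) d = x.1 d.1 := by
        intro x u d
        have a1 := jump_pot Γ x d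
        have a2 : u.1 (Γ.rot.symm d) = u.1 d := by
          have := u.2 (Γ.rot.symm d)
          rw [Equiv.apply_symm_apply] at this
          exact this.symm
        unfold jump at a1 ⊢
        rw [Pi.add_apply, Pi.add_apply, a2]
        have := two0 (u.1 d)
        linear_combination a1 + this
      have hx : x = x' := by
        apply Subtype.ext
        ext e
        rw [← hj x u (e, false), h0, hj]
      subst hx
      have hu : u = u' := Subtype.ext (add_left_cancel h0)
      subst hu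
      rfl
    · rintro ⟨γ, h1, h2⟩
      -- the jumps
      let x : Fin k → ZMod 2 := fun e => if e ∈ S then γ (e, false) + γ (e, true) else 0
      have hx : ∀ d, jump Γ γ d = x d.1 := by
        intro d
        simp only [x]
        by_cases hd : d.1 ∈ S
        · rw [if_pos hd, h2 d hd]
        · rw [if_neg hd, h1 d hd]
      have hxc := jump_cyc Γ γ x hx
      have hinv : γ + pot Γ ⟨x, hxc⟩ ∈ InvG Γ := by
        apply inv_of_jump
        intro d
        have a1 := jump_pot Γ ⟨x, hxc⟩ d
        have a2 := hx d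
        have a3 : jump Γ (γ + pot Γ ⟨x, hxc⟩) d = jump Γ γ d + jump Γ (pot Γ ⟨x, hxc⟩) d := by
          unfold jump
          rw [Pi.add_apply, Pi.add_apply]; ring
        rw [a3, a1, a2]
        exact two0 _
      have hsum : pot Γ ⟨x, hxc⟩ + (γ + pot Γ ⟨x, hxc⟩) = γ := by
        ext d
        rw [Pi.add_apply, Pi.add_apply]
        have := two0 (pot Γ ⟨x, hxc⟩ d)
        linear_combination this
      refine ⟨⟨⟨⟨x, hxc⟩, ⟨_, hinv⟩⟩, ⟨fun e he => ?_, fun e he => ?_⟩⟩, ?_⟩
      · show x e = 0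
        simp only [x]
        rw [if_neg he]
      · show (pot Γ ⟨x, hxc⟩ + (γ + pot Γ ⟨x, hxc⟩)) (e, false) + 
          (pot Γ ⟨x, hxc⟩ + (γ + pot Γ ⟨x, hxc⟩)) (e, true) = x e
        rw [hsum]
        simp only [x]
        rw [if_pos he]
      · exact Subtype.ext hsum
  -- the indicator as a sum of characters
  have h2 : ∀ x : Cyc Γ, (2 : ℤ) ^ S.card * ∑ u : InvG Γ, (if cond x u then (1 : ℤ) else 0) = 
      2 ^ Γ.verts * ∑ y : Cyc Γ, (if (∀ e, e ∉ S → y.1 e = 0) then sg (om Γ x y) else 0) := by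
    intro x
    have a1 : ∀ u : InvG Γ, (2 : ℤ) ^ S.card * (if cond x u then (1 : ℤ) else 0) = 
        ∑ y : SubR S, sg (pr y.1 (pot Γ x + u.1) + ∑ e, x.1 e * y.1 e) := by
      intro u
      let φ : SubR S →+ ZMod 2 := AddMonoidHom.mk' 
        (fun y => pr y.1 (pot Γ x + u.1) + ∑ e, x.1 e * y.1 e) (by
          intro a b
          have b1 : (a + b).1 = a.1 + b.1 := rfl
          rw [b1, pr_add_left]
          have : ∑ e, x.1 e * (a.1 + b.1) e = ∑ e, x.1 e * a.1 e + ∑ e, x.1 e * b.1 e := by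
            rw [← Finset.sum_add_distrib]
            exact Finset.sum_congr rfl fun e _ => by rw [Pi.add_apply]; ring
          rw [this]; ring)
      by_cases hc : cond x u
      · rw [if_pos hc, mul_one]
        have b1 : ∀ y : SubR S, pr y.1 (pot Γ x + u.1) + ∑ e, x.1 e * y.1 e = 0 := by
          intro y
          unfold pr
          rw [← Finset.sum_add_distrib]
          refine Finset.sum_eq_zero fun e _ => ?_
          by_cases he : e ∈ S
          · have := hc e he
            rw [Pi.add_apply, Pi.add_apply, this]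
            rw [mul_comm]
            exact two0 _
          · rw [y.2 e he]; ring
        rw [Finset.sum_congr rfl (fun y _ => by rw [b1 y, sg_zero]), Finset.sum_const, 
          Finset.card_univ, card_SubR]
        simp
      · rw [if_neg hc, mul_zero]
        symm
        have : ∃ e ∈ S, (pot Γ x (e, false) + u.1 (e, false)) + 
            (pot Γ x (e, true) + u.1 (e, true)) ≠ x.1 e := by
          by_contra hcon
          push Not at hcon
          exact hc hcon
        obtain ⟨e, he, hne⟩ := this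
        refine sum_char φ ⟨Pi.single e 1, fun e' he' => ?_⟩ ?_
        · rw [Pi.single_apply, if_neg]
          rintro rfl
          exact he' he
        · show pr (Pi.single e 1) (pot Γ x + u.1) + 
            ∑ e', x.1 e' * (Pi.single e (1 : ZMod 2) : Fin k → ZMod 2) e' ≠ 0
          unfold pr
          rw [Finset.sum_eq_single e, Finset.sum_eq_single e]
          · rw [Pi.single_eq_same, one_mul, mul_one, Pi.add_apply, Pi.add_apply]
            intro h0
            apply hne
            have := two0 (x.1 e)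
            linear_combination h0 - this
          · intro e' _ he'
            simp [he']
          · intro h; exact absurd (Finset.mem_univ e) h
          · intro e' _ he'
            simp [he']
          · intro h; exact absurd (Finset.mem_univ e) h
    rw [Finset.mul_sum, Finset.sum_congr rfl (fun u _ => a1 u), Finset.sum_comm]
    -- sum over u
    have a2 : ∀ y : SubR S, ∑ u : InvG Γ, sg (pr y.1 (pot Γ x + u.1) + ∑ e, x.1 e * y.1 e) = 
        if h : y.1 ∈ Cyc Γ then (2 : ℤ) ^ Γ.verts * sg (om Γ x ⟨y.1, h⟩) else 0 := by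
      intro y
      have b1 : ∀ u : InvG Γ, sg (pr y.1 (pot Γ x + u.1) + ∑ e, x.1 e * y.1 e) = 
          sg (pr y.1 (pot Γ x) + ∑ e, x.1 e * y.1 e) * sg (pr y.1 u.1) := by
        intro u
        rw [pr_add_right, ← sg_add]
        congr 1
        ring
      rw [Finset.sum_congr rfl (fun u _ => b1 u), ← Finset.mul_sum]
      by_cases hy : y.1 ∈ Cyc Γ
      · have b4 : ∑ u : InvG Γ, sg (pr y.1 u.1) = 2 ^ Γ.verts := by
          have b5 : ∀ u : InvG Γ, sg (pr y.1 u.1) = 1 := fun u => by rw [hy u.1 u.2, sg_zero]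
          rw [Finset.sum_congr rfl (fun u _ => b5 u), Finset.sum_const, Finset.card_univ, card_Inv]
          simp
        rw [dif_pos hy, b4, mul_comm]
        rfl
      · rw [dif_neg hy]
        have : ∃ f ∈ InvG Γ, pr y.1 f ≠ 0 := by
          by_contra hcon
          push Not at hcon
          exact hy hcon
        obtain ⟨f, hf, hne⟩ := this
        have b2 := sum_char (C := InvG Γ) (AddMonoidHom.mk' (fun f => pr y.1 f.1) 
          (fun f g => pr_add_right y.1 f.1 g.1)) ⟨f, hf⟩ hne
        have b3 : ∑ u : InvG Γ, sg (pr y.1 u.1) = 0 := b2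
        rw [b3, mul_zero]
    rw [Finset.sum_congr rfl (fun y _ => a2 y), Finset.mul_sum]
    -- the two ways to write the sum over the cycles in S
    have a3 : ∑ y : SubR S, (if h : y.1 ∈ Cyc Γ then (2 : ℤ) ^ Γ.verts * sg (om Γ x ⟨y.1, h⟩) else 0) = 
        ∑ y : {y : SubR S // y.1 ∈ Cyc Γ}, (2 : ℤ) ^ Γ.verts * sg (om Γ x ⟨y.1.1, y.2⟩) := by
      rw [Finset.sum_dite, Finset.sum_const_zero, add_zero]
      refine Finset.sum_bij' (fun y _ => ⟨y.1, (Finset.mem_filter.1 y.2).2⟩) 
        (fun y _ => ⟨y.1, Finset.mem_filter.2 ⟨Finset.mem_univ _, y.2⟩⟩) ?_ ?_ ?_ ?_ ?_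
      · intro y _; exact Finset.mem_univ _
      · intro y _; exact Finset.mem_attach _ _
      · intro y _; rfl
      · intro y _; rfl
      · intro y _; rfl
    have a4 : ∑ y : Cyc Γ, (2 : ℤ) ^ Γ.verts * (if (∀ e, e ∉ S → y.1 e = 0) then sg (om Γ x y) else 0) = 
        ∑ y : {y : Cyc Γ // ∀ e, e ∉ S → y.1 e = 0}, (2 : ℤ) ^ Γ.verts * sg (om Γ x y.1) := by
      have b1 : ∀ y : Cyc Γ, (2 : ℤ) ^ Γ.verts * 
          (if (∀ e, e ∉ S → y.1 e = 0) then sg (om Γ x y) else 0) = 
          (if (∀ e, e ∉ S → y.1 e = 0) then (2 : ℤ) ^ Γ.verts * sg (om Γ x y) else 0) := by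
        intro y; split_ifs <;> simp
      rw [Finset.sum_congr rfl (fun y _ => b1 y), ← Finset.sum_filter]
      exact Finset.sum_subtype _ (fun y => by simp) _
    rw [a3, a4]
    refine Fintype.sum_bijective (fun y => ⟨⟨y.1.1, y.2⟩, y.1.2⟩) ?_ _ _ (fun y => rfl)
    refine ⟨?_, ?_⟩
    · rintro ⟨⟨y, h1⟩, h2⟩ ⟨⟨y', h1'⟩, h2'⟩ h
      have : y = y' := congrArg (fun z => z.1.1) h
      subst this
      rfl
    · rintro ⟨⟨y, h1⟩, h2⟩
      exact ⟨⟨⟨y, h2⟩, h1⟩, rfl⟩
  rw [pow_add, h1, Finset.mul_sum, Finset.mul_sum]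
  refine Finset.sum_congr rfl fun x _ => ?_
  by_cases hx : ∀ e, e ∉ S → x.1 e = 0
  · have c1 : ∀ u : InvG Γ, (if (∀ e, e ∉ S → x.1 e = 0) ∧ cond x u then (1 : ℤ) else 0) = 
        (if cond x u then 1 else 0) := by
      intro u
      by_cases hc : cond x u
      · rw [if_pos ⟨hx, hc⟩, if_pos hc]
      · rw [if_neg (fun h => hc h.2), if_neg hc]
    have c2 : ∀ y : Cyc Γ, (if (∀ e, e ∉ S → x.1 e = 0) ∧ (∀ e, e ∉ S → y.1 e = 0) then 
        sg (om Γ x y) else 0) = (if (∀ e, e ∉ S → y.1 e = 0) then sg (om Γ x y) else 0) := by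
      intro y
      by_cases hc : ∀ e, e ∉ S → y.1 e = 0
      · rw [if_pos ⟨hx, hc⟩, if_pos hc]
      · rw [if_neg (fun h => hc h.2), if_neg hc]
    rw [Finset.sum_congr rfl (fun u _ => c1 u), Finset.sum_congr rfl (fun y _ => c2 y)]
    exact h2 x
  · rw [Finset.sum_eq_zero (fun u _ => if_neg (fun h => hx h.1)), 
      Finset.sum_eq_zero (fun y _ => if_neg (fun h => hx h.1))]
    simp

end Pool.Agent.H953R3.Q2
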