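import Pool.Agent.H832R3.TW.B
import Pool.Agent.H953R3.Q2.Om2
import Pool.Agent.H953R3.Q2.Fin2

set_option autoImplicit false

/-! The second moment of the Jones polynomial for ribbon graphs on arbitrary orientable surfaces. -/

namespace Pool.Agent.H953R3.Q2

open Finset LaurentPolynomial Pool.Agent.H891R2.Jones Pool.Agent.H891R2.MT Pool.Agent.H832R3.VJ
open Pool.Agent.H832R3.VJ.V7 (moment_C_mul)
open Pool.Agent.H832R3.TW (Corner corner twisted Sm loops cp)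

variable {k : ℕ}

/-! ribbon graphs as templates -/

def cL (d : Fin k × Bool) : Corner k := (d.1, d.2, !d.2)
def cR (d : Fin k × Bool) : Corner k := (d.1, d.2, d.2)

def arcsOf (Γ : Ribbon k) : List (Corner k × Corner k) :=
  (List.finRange k).flatMap (fun e => 
    [(cL (e, false), cR (Γ.rot (e, false))), (cL (e, true), cR (Γ.rot (e, true)))])

theorem corner_cL (n : Fin k → ℤ) (d : Fin k × Bool) : corner n (cL d) = Ribbon.left n d := by
  obtain ⟨e, b⟩ := d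
  cases b <;> rfl

theorem corner_cR (n : Fin k → ℤ) (d : Fin k × Bool) : corner n (cR d) = Ribbon.right n d := by
  obtain ⟨e, b⟩ := d
  cases b <;> rfl

theorem link_eq (Γ : Ribbon k) (n : Fin k → ℤ) : Γ.link n = twisted (arcsOf Γ) n := by
  unfold Ribbon.link twisted arcsOf
  congr 1
  rw [List.map_flatMap]
  simp only [List.map_cons, List.map_nil, Prod.map, corner_cL, corner_cR]

theorem mem_arcs (Γ : Ribbon k) (x y : Corner k) : 
    (x, y) ∈ arcsOf Γ ↔ ∃ d, x = cL d ∧ y = cR (Γ.rot d) := by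
  unfold arcsOf
  rw [List.mem_flatMap]
  constructor
  · rintro ⟨e, -, h⟩
    simp only [List.mem_cons, Prod.mk.injEq, List.not_mem_nil, or_false] at h
    rcases h with h | h
    · exact ⟨(e, false), h⟩
    · exact ⟨(e, true), h⟩
  · rintro ⟨⟨e, b⟩, h1, h2⟩
    refine ⟨e, List.mem_finRange e, ?_⟩
    subst h1 h2
    cases b <;> simp

/-- corners of the two kinds -/
def cE (k : ℕ) : (Fin k × Bool) × Bool ≃ Corner k where
  toFun x := (x.1.1, x.1.2, xor x.2 x.1.2)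
  invFun y := ((y.1, y.2.1), xor y.2.2 y.2.1)
  left_inv := by
    rintro ⟨⟨e, b⟩, s⟩
    cases b <;> cases s <;> rfl
  right_inv := by
    rintro ⟨e, b, s⟩
    cases b <;> cases s <;> rfl

theorem loops_eq (Γ : Ribbon k) (S : Finset (Fin k)) : loops (arcsOf Γ) S = Γ.curves S := by
  unfold loops Ribbon.curves
  symm
  apply Nat.card_congr
  refine Quot.congr (cE k) ?_
  intro x y
  unfold Ribbon.Cor Sm
  rw [mem_arcs]
  have h1 : (x.2 = true ∧ y = (Γ.rot x.1, false)) ↔ ∃ d, cE k x = cL d ∧ cE k y = cR (Γ.rot d) := by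
    constructor
    · rintro ⟨h1, h2⟩
      refine ⟨x.1, ?_, ?_⟩
      · obtain ⟨⟨e, b⟩, s⟩ := x
        simp only at h1
        subst h1
        cases b <;> rfl
      · subst h2
        generalize Γ.rot x.1 = z
        obtain ⟨e, b⟩ := z
        cases b <;> rfl
    · rintro ⟨d, h1, h2⟩
      have h3 : x = (d, true) := by
        apply (cE k).injective
        rw [h1]
        obtain ⟨e, b⟩ := d
        cases b <;> rfl
      have h4 : y = (Γ.rot d, false) := by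
        apply (cE k).injective
        rw [h2]
        generalize Γ.rot d = z
        obtain ⟨e, b⟩ := z
        cases b <;> rfl
      subst h3
      exact ⟨rfl, h4⟩
  have h2 : y = (flip x.1, !x.2) ↔ cE k y = ((cE k x).1, !(cE k x).2.1, (cE k x).2.2) := by
    rw [← (cE k).injective.eq_iff]
    have : cE k (flip x.1, !x.2) = ((cE k x).1, !(cE k x).2.1, (cE k x).2.2) := by
      obtain ⟨⟨e, b⟩, s⟩ := x
      cases b <;> cases s <;> rfl
    rw [this]
  have h3 : y = (x.1, !x.2) ↔ cE k y = ((cE k x).1, (cE k x).2.1, !(cE k x).2.2) := by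
    rw [← (cE k).injective.eq_iff]
    have : cE k (x.1, !x.2) = ((cE k x).1, (cE k x).2.1, !(cE k x).2.2) := by
      obtain ⟨⟨e, b⟩, s⟩ := x
      cases b <;> cases s <;> rfl
    rw [this]
  have h4 : (cE k x).1 = x.1.1 := rfl
  rw [h1, h2, h3, h4]

/-! the polynomials at `-2` -/

theorem pow_curves (Γ : Ribbon k) (R : Finset (Fin k)) : (-2 : ℤ) ^ (R.card + Γ.curves R) = 
    (-2) ^ Γ.verts * ∑ x : Cyc Γ × Cyc Γ, sg (om Γ x.1 x.2) * (if sup2 Γ x ⊆ R then (1 : ℤ) else 0) := by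
  classical
  have h1 := gauss_curves Γ R
  have h2 := curves_parity Γ R
  rw [curves_empty] at h2
  have e1 : (-2 : ℤ) ^ (R.card + Γ.curves R) = (-1) ^ (R.card + Γ.curves R) * 2 ^ (R.card + Γ.curves R) := by
    rw [← mul_pow]; norm_num
  have e2 : (-2 : ℤ) ^ Γ.verts = (-1) ^ Γ.verts * 2 ^ Γ.verts := by
    rw [← mul_pow]; norm_num
  rw [e1, e2, h2, h1, mul_assoc, Fintype.sum_prod_type]
  congr 2
  refine Finset.sum_congr rfl fun a _ => Finset.sum_congr rfl fun b _ => ?_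
  have h3 : sup2 Γ (a, b) ⊆ R ↔ (∀ e, e ∉ R → a.1 e = 0) ∧ (∀ e, e ∉ R → b.1 e = 0) := by
    unfold sup2
    constructor
    · intro h
      refine ⟨fun e he => ?_, fun e he => ?_⟩
      · by_contra hne
        exact he (h (Finset.mem_filter.2 ⟨Finset.mem_univ _, fun h => hne h.1⟩))
      · by_contra hne
        exact he (h (Finset.mem_filter.2 ⟨Finset.mem_univ _, fun h => hne h.2⟩))
    · rintro ⟨h1, h2⟩ e he
      rw [Finset.mem_filter] at he
      by_contra hne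
      exact he.2 ⟨h1 e hne, h2 e hne⟩
  by_cases hc : sup2 Γ (a, b) ⊆ R
  · rw [if_pos hc, if_pos (h3.1 hc), mul_one]
  · rw [if_neg hc, if_neg (fun h => hc (h3.2 h)), mul_zero]

theorem cp_two (Γ : Ribbon k) (S : Finset (Fin k)) : (cp (arcsOf Γ) S).eval (-2) = 
    (-2) ^ Γ.verts * ∑ x : Cyc Γ × Cyc Γ, sg (om Γ x.1 x.2) * (if sup2 Γ x = S then (1 : ℤ) else 0) := by
  unfold cp
  rw [Polynomial.eval_finsetSum]
  have h2 : ∀ R ∈ S.powerset, 
      Polynomial.eval (-2) ((-1) ^ (S.card - R.card) * 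
        Polynomial.X ^ (R.card + loops (arcsOf Γ) R) : Polynomial ℤ) = 
        (-2) ^ Γ.verts * ∑ x : Cyc Γ × Cyc Γ, sg (om Γ x.1 x.2) * ((-1 : ℤ) ^ (S.card - R.card) * 
          (if sup2 Γ x ⊆ R then (1 : ℤ) else 0)) := by
    intro R _
    rw [Polynomial.eval_mul, Polynomial.eval_pow, Polynomial.eval_pow, Polynomial.eval_X, 
      Polynomial.eval_neg, Polynomial.eval_one, loops_eq, pow_curves, mul_left_comm, Finset.mul_sum]
    congr 1
    refine Finset.sum_congr rfl fun x _ => ?_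
    ring
  rw [Finset.sum_congr rfl h2, ← Finset.mul_sum, Finset.sum_comm]
  congr 1
  refine Finset.sum_congr rfl fun x _ => ?_
  rw [← Finset.mul_sum, incl_excl (sup2 Γ x) S]

theorem sum_two (Γ : Ribbon k) (g : Finset (Fin k) → ℤ) :
    ∑ S : Finset (Fin k), g S * (cp (arcsOf Γ) S).eval (-2) = 
      (-2) ^ Γ.verts * ∑ x : Cyc Γ × Cyc Γ, sg (om Γ x.1 x.2) * g (sup2 Γ x) := by
  classical
  simp only [cp_two, Finset.mul_sum]
  rw [Finset.sum_comm]
  refine Finset.sum_congr rfl fun x _ => ?_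
  rw [Finset.sum_eq_single (sup2 Γ x)]
  · rw [if_pos rfl]; ring
  · intro S _ hS
    rw [if_neg (Ne.symm hS)]; ring
  · intro h; exact absurd (Finset.mem_univ _) h

/-! the quadratic form -/

/-- the total form -/
noncomputable def BT (Γ : Ribbon k) (t : Fin k → ZMod 2) : Cyc Γ →+ Cyc Γ →+ ZMod 2 := OM Γ + BF Γ t

theorem BT_apply (Γ : Ribbon k) (t : Fin k → ZMod 2) (a b : Cyc Γ) : 
    BT Γ t a b = om Γ a b + BF Γ t a b := rfl

theorem BT_symm (Γ : Ribbon k) (t : Fin k → ZMod 2) (a b : Cyc Γ) : BT Γ t a b = BT Γ t b a := by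
  rw [BT_apply, BT_apply, om_symm, BF_symm]

theorem hh_BT (Γ : Ribbon k) (t : Fin k → ZMod 2) (x : Cyc Γ × Cyc Γ) : 
    sg (hh (BT Γ t) x) = sg (om Γ x.1 x.2) * sg (hh (BF Γ t) x) := by
  rw [← sg_add]
  congr 1
  unfold hh
  rw [BT_apply, BT_apply, BT_apply, om_self, om_self]
  ring

noncomputable def qt (Γ : Ribbon k) (t : Fin k → ZMod 2) (e f : Fin k) : ℤ :=
  ZZ (BT Γ t) * V2 (BT Γ t) (el Γ e) (el Γ f) - V1 (BT Γ t) (el Γ e) * V1 (BT Γ t) (el Γ f)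

theorem qt_symm (Γ : Ribbon k) (t : Fin k → ZMod 2) (e f : Fin k) : qt Γ t e f = qt Γ t f e := by
  unfold qt
  have : V2 (BT Γ t) (el Γ e) (el Γ f) = V2 (BT Γ t) (el Γ f) (el Γ e) := by
    unfold V2
    exact Finset.sum_congr rfl fun x _ => by ring
  rw [this]
  ring

theorem exists_cycle' (Γ : Ribbon k) (h2 : Γ.verts < k + Γ.comps Finset.univ) :
    ∃ x : Cyc Γ, x ≠ 0 := by
  classical
  by_contra hcon
  push Not at hcon
  have h := card_cyc Γ Finset.univ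
  rw [Finset.card_univ, Fintype.card_fin] at h
  have h3 : #{x : Cyc Γ | ∀ e, e ∉ (Finset.univ : Finset (Fin k)) → x.1 e = 0} ≤ 1 := by
    rw [Finset.card_le_one]
    intro a _ b _
    rw [hcon a, hcon b]
  have h4 : 2 ^ (k + Γ.comps Finset.univ) ≤ 2 ^ Γ.verts := by
    rw [← h]
    calc _ ≤ 1 * 2 ^ Γ.verts := Nat.mul_le_mul_right _ h3
      _ = _ := one_mul _
  have := (Nat.pow_le_pow_iff_right (by norm_num : 1 < 2)).1 h4
  omega

theorem qt_ne (Γ : Ribbon k) (h2 : Γ.verts < k + Γ.comps Finset.univ)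
    (F : Finset (Fin k)) (hF : Fᶜ.card + Γ.comps Fᶜ = Γ.verts)
    (t : Fin k → ZMod 2) : ∃ e ∈ F, ∃ f ∈ F, qt Γ t e f ≠ 0 := by
  obtain ⟨x0, hx0⟩ := exists_cycle' Γ h2
  obtain ⟨e, f, h⟩ := cov_ne (ι := F) (BT Γ t) (BT_symm Γ t) (fun e => el Γ e.1) 
    (fun x hx => forest_zero Γ F hF x (fun e he => hx ⟨e, he⟩)) x0 hx0
  exact ⟨e.1, e.2, f.1, f.2, fun h0 => h (by unfold qt at h0; linarith)⟩

theorem sum_z' (Γ : Ribbon k) (n : Fin k → ℤ) (B : Cyc Γ →+ Cyc Γ →+ ZMod 2) :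
    ∑ x : Cyc Γ × Cyc Γ, sg (hh B x) * zz Γ n x = ∑ e, n e * V1 B (el Γ e) := by
  unfold zz V1
  simp only [Finset.mul_sum]
  rw [Finset.sum_comm]
  refine Finset.sum_congr rfl fun e _ => Finset.sum_congr rfl fun x _ => ?_
  rw [el_apply, el_apply]; ring

theorem sum_zz' (Γ : Ribbon k) (n : Fin k → ℤ) (B : Cyc Γ →+ Cyc Γ →+ ZMod 2) :
    ∑ x : Cyc Γ × Cyc Γ, sg (hh B x) * zz Γ n x ^ 2 = 
      ∑ e, ∑ f, n e * n f * V2 B (el Γ e) (el Γ f) := by
  have h1 : ∀ x : Cyc Γ × Cyc Γ, sg (hh B x) * zz Γ n x ^ 2 = 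
      ∑ e, ∑ f, n e * n f * (sg (hh B x) * 
        (ind (el Γ e x.1) (el Γ e x.2) * ind (el Γ f x.1) (el Γ f x.2))) := by
    intro x
    unfold zz
    rw [sq, Finset.sum_mul_sum, Finset.mul_sum]
    refine Finset.sum_congr rfl fun e _ => ?_
    rw [Finset.mul_sum]
    refine Finset.sum_congr rfl fun f _ => ?_
    simp only [el_apply]
    ring
  simp only [h1]
  rw [Finset.sum_comm]
  refine Finset.sum_congr rfl fun e _ => ?_
  rw [Finset.sum_comm]
  refine Finset.sum_congr rfl fun f _ => ?_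
  unfold V2
  rw [Finset.mul_sum]

/-- the three sums -/
theorem three_sums' (Γ : Ribbon k) (n : Fin k → ℤ) (t : Fin k → ZMod 2)
    (ht : ∀ e, ((n e : ℤ) : ZMod 2) = t e) :
    (∑ S : Finset (Fin k), (-1 : ℤ) ^ (nS n S).natAbs * (cp (arcsOf Γ) S).eval (-2) = 
      (-2) ^ Γ.verts * ZZ (BT Γ t)) ∧
    (∑ S : Finset (Fin k), (-1 : ℤ) ^ (nS n S).natAbs * (cp (arcsOf Γ) S).eval (-2)) * 
      (∑ S : Finset (Fin k), ((-1 : ℤ) ^ (nS n S).natAbs * nS n S ^ 2) * (cp (arcsOf Γ) S).eval (-2)) - 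
      (∑ S : Finset (Fin k), ((-1 : ℤ) ^ (nS n S).natAbs * nS n S) * (cp (arcsOf Γ) S).eval (-2)) ^ 2 = 
        4 ^ Γ.verts * QF (qt Γ t) n := by
  have e0 := sum_two Γ (fun S => (-1 : ℤ) ^ (nS n S).natAbs)
  have e1 := sum_two Γ (fun S => (-1 : ℤ) ^ (nS n S).natAbs * nS n S)
  have e2 := sum_two Γ (fun S => (-1 : ℤ) ^ (nS n S).natAbs * nS n S ^ 2)
  simp only [sign_eq Γ n t ht, ← mul_assoc, ← hh_BT] at e0 e1 e2
  have f0 : ∑ x : Cyc Γ × Cyc Γ, sg (hh (BT Γ t) x) = ZZ (BT Γ t) := rfl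
  rw [f0] at e0
  obtain ⟨N, hN⟩ : ∃ N, N = ∑ e, n e := ⟨_, rfl⟩
  obtain ⟨s1, hs1⟩ : ∃ s, s = ∑ e, n e * V1 (BT Γ t) (el Γ e) := ⟨_, rfl⟩
  obtain ⟨s2, hs2⟩ : ∃ s, s = ∑ e, ∑ f, n e * n f * V2 (BT Γ t) (el Γ e) (el Γ f) := ⟨_, rfl⟩
  have g1 := sum_z' Γ n (BT Γ t)
  have g2 := sum_zz' Γ n (BT Γ t)
  rw [← hs1] at g1
  rw [← hs2] at g2
  have f1 : ∑ x : Cyc Γ × Cyc Γ, sg (hh (BT Γ t) x) * nS n (sup2 Γ x) = 
      N * ZZ (BT Γ t) - s1 := by
    rw [← g1, ← f0, Finset.mul_sum, ← Finset.sum_sub_distrib]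
    refine Finset.sum_congr rfl fun x _ => ?_
    rw [nS_sup2, ← hN]; ring
  have f2 : ∑ x : Cyc Γ × Cyc Γ, sg (hh (BT Γ t) x) * nS n (sup2 Γ x) ^ 2 = 
      N ^ 2 * ZZ (BT Γ t) - 2 * N * s1 + s2 := by
    rw [← g1, ← g2, ← f0, Finset.mul_sum, Finset.mul_sum, ← Finset.sum_sub_distrib, 
      ← Finset.sum_add_distrib]
    refine Finset.sum_congr rfl fun x _ => ?_
    rw [nS_sup2, ← hN]; ring
  rw [f1] at e1
  rw [f2] at e2
  have e0' : ∑ S : Finset (Fin k), (-1 : ℤ) ^ (nS n S).natAbs * (cp (arcsOf Γ) S).eval (-2) = 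
      (-2) ^ Γ.verts * ZZ (BT Γ t) := e0
  refine ⟨e0', ?_⟩
  rw [e0', e1, e2]
  have hq : QF (qt Γ t) n = ZZ (BT Γ t) * s2 - s1 ^ 2 := by
    unfold QF qt
    rw [hs1, hs2, sq, Finset.sum_mul_sum, Finset.mul_sum, ← Finset.sum_sub_distrib]
    refine Finset.sum_congr rfl fun e _ => ?_
    rw [Finset.mul_sum, ← Finset.sum_sub_distrib]
    refine Finset.sum_congr rfl fun f _ => ?_
    ring
  rw [hq]
  have h16 : (4 : ℤ) ^ Γ.verts = (-2) ^ Γ.verts * (-2) ^ Γ.verts := by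
    rw [← mul_pow]; norm_num
  rw [h16]
  ring

end Pool.Agent.H953R3.Q2
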