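import Pool.Agent.H953R3.Q2.Om3

set_option autoImplicit false

/-! Assembly for ribbon graphs on arbitrary orientable surfaces. -/

namespace Pool.Agent.H953R3.Q2

open Finset LaurentPolynomial Pool.Agent.H891R2.Jones Pool.Agent.H891R2.MT Pool.Agent.H832R3.VJ
open Pool.Agent.H832R3.VJ.V7 (moment_C_mul moment_term)
open Pool.Agent.H832R3.TW (Corner corner twisted Sm loops cp)

variable {k : ℕ}

/-- `δ` -/
noncomputable def del : ℤ[T;T⁻¹] := -T 2 - T (-2)

theorem del_eq : del = C (-1) * T 2 + C (-1) * T (-2) := by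
  unfold del
  rw [map_neg, map_one]
  ring

theorem del0 : moment 0 del = -2 := by
  rw [del_eq, moment_add, moment_term, moment_term]
  norm_num

theorem del1 : moment 1 del = 0 := by
  rw [del_eq, moment_add, moment_term, moment_term]
  norm_num

theorem aevald0 (p : Polynomial ℤ) : moment 0 (Polynomial.aeval del p) = p.eval (-2) := by
  induction p using Polynomial.induction_on' with
  | add p q hp hq => rw [map_add, moment_add, hp, hq, Polynomial.eval_add]
  | monomial n a =>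
    rw [Polynomial.aeval_monomial, Polynomial.eval_monomial]
    have h : (algebraMap ℤ ℤ[T;T⁻¹]) a = C a := by simp
    rw [h, moment_C_mul]
    congr 1
    induction n with
    | zero => rw [pow_zero, m_one]; simp
    | succ n ih => rw [pow_succ, mul0, ih, del0, pow_succ]

theorem aevald1 (p : Polynomial ℤ) : moment 1 (Polynomial.aeval del p) = 0 := by
  induction p using Polynomial.induction_on' with
  | add p q hp hq => rw [map_add, moment_add, hp, hq, add_zero]
  | monomial n a =>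
    rw [Polynomial.aeval_monomial]
    have h : (algebraMap ℤ ℤ[T;T⁻¹]) a = C a := by simp
    rw [h, moment_C_mul]
    have : moment 1 (del ^ n) = 0 := by
      induction n with
      | zero => rw [pow_zero, m_one]; simp
      | succ n ih => rw [pow_succ, mul1, ih, del1]; simp
    rw [this, mul_zero]

/-- the state sum -/
noncomputable def FT (Γ : Ribbon k) (n : Fin k → ℤ) : ℤ[T;T⁻¹] :=
  ∑ S : Finset (Fin k), ((-1 : ℤ[T;T⁻¹]) ^ (nS n S).natAbs * T (4 * nS n S)) * 
    Polynomial.aeval del (cp (arcsOf Γ) S)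

/-- a constant of the parity class -/
noncomputable def KT (Γ : Ribbon k) (t : Fin k → ZMod 2) : ℤ :=
  ∑ S : Finset (Fin k), sg (∑ e ∈ S, t e) * moment 2 (Polynomial.aeval del (cp (arcsOf Γ) S))

theorem kap_FT (Γ : Ribbon k) (n : Fin k → ℤ) (t : Fin k → ZMod 2)
    (ht : ∀ e, ((n e : ℤ) : ZMod 2) = t e) :
    kap (FT Γ n) = 16 * (4 ^ Γ.verts * QF (qt Γ t) n) + (-2) ^ Γ.verts * ZZ (BT Γ t) * KT Γ t := by
  obtain ⟨h0, h1⟩ := three_sums' Γ n t ht
  have m0 : moment 0 (FT Γ n) = 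
      ∑ S : Finset (Fin k), (-1 : ℤ) ^ (nS n S).natAbs * (cp (arcsOf Γ) S).eval (-2) := by
    unfold FT
    rw [m_sum]
    refine Finset.sum_congr rfl fun S _ => ?_
    rw [neg_pow_C, mul_assoc, moment_C_mul, T_mul0, aevald0]
  have m1 : moment 1 (FT Γ n) = 
      4 * ∑ S : Finset (Fin k), ((-1 : ℤ) ^ (nS n S).natAbs * nS n S) * 
        (cp (arcsOf Γ) S).eval (-2) := by
    unfold FT
    rw [m_sum, Finset.mul_sum]
    refine Finset.sum_congr rfl fun S _ => ?_
    rw [neg_pow_C, mul_assoc, moment_C_mul, T_mul1, aevald0, aevald1]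
    ring
  have m2 : moment 2 (FT Γ n) = 
      16 * (∑ S : Finset (Fin k), ((-1 : ℤ) ^ (nS n S).natAbs * nS n S ^ 2) * 
        (cp (arcsOf Γ) S).eval (-2)) + KT Γ t := by
    unfold FT KT
    rw [m_sum, Finset.mul_sum, ← Finset.sum_add_distrib]
    refine Finset.sum_congr rfl fun S _ => ?_
    rw [neg_pow_C, mul_assoc, moment_C_mul, T_mul2, aevald0, aevald1, ← cast_nS n t ht S, ← sign_int]
    ring
  unfold kap
  rw [m0, m1, m2, mul_add]
  rw [h0] at h1 ⊢
  linear_combination 16 * h1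

theorem FT_eq (Γ : Ribbon k) (hk : 0 < k) (n : Fin k → ℤ) :
    FT Γ n = C ((-1 : ℤ) ^ (nS n univ).natAbs) * T (3 * nS n univ) * 
      (del ^ (1 + k) * (Γ.link n).std.bracket) := by
  have h := Pool.Agent.H832R3.TW.identity (arcsOf Γ) hk n
  rw [link_eq]
  unfold FT del
  rw [h, neg_pow_C]
  ring

/-- the constant on the right -/
noncomputable def RT (k : ℕ) (a b : ℤ) : ℤ :=
  moment 0 (del ^ (1 + k)) ^ 2 * a + b * kap (del ^ (1 + k))

theorem keyT (Γ : Ribbon k) (hk : 0 < k) (n : Fin k → ℤ) (t : Fin k → ZMod 2)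
    (ht : ∀ e, ((n e : ℤ) : ZMod 2) = t e) :
    (16 * 4 ^ Γ.verts) * QF (qt Γ t) n = 
      RT k (kap (Γ.link n).std.bracket) (moment 0 (Γ.link n).std.bracket ^ 2) - 
        (-2) ^ Γ.verts * ZZ (BT Γ t) * KT Γ t := by
  have h1 := kap_FT Γ n t ht
  rw [FT_eq Γ hk n, kap_unit _ _ (by rw [← pow_mul, mul_comm, pow_mul]; simp), kap_mul] at h1
  unfold RT
  linarith

open Classical in
/-- the count: prescribed invariants -/
theorem count_kapT (Γ : Ribbon k) (hk : 0 < k) (hv : Γ.verts < k + Γ.comps Finset.univ) 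
    (F : Finset (Fin k)) (hF : Fᶜ.card + Γ.comps Fᶜ = Γ.verts) (a b : ℤ) 
    (A : Fin k → Finset ℤ) (M : ℕ)
    (hM : ∀ e ∈ F, ∀ (r : ZMod 2), #{x ∈ A e | ((x : ℤ) : ZMod 2) = r} = 0 ∨ 
      M ≤ #{x ∈ A e | ((x : ℤ) : ZMod 2) = r}) :
    M * #{n ∈ Fintype.piFinset A | kap (Γ.link n).std.bracket = a ∧ 
      moment 0 (Γ.link n).std.bracket ^ 2 = b} ≤ 2 * ∏ e, (A e).card := by
  set Bad := ({n ∈ Fintype.piFinset A | kap (Γ.link n).std.bracket = a ∧ 
      moment 0 (Γ.link n).std.bracket ^ 2 = b}) with hBad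
  have h1 := Finset.card_eq_sum_card_fiberwise (s := Bad) (t := (Finset.univ : Finset (Fin k → ZMod 2)))
    (f := fun n e => ((n e : ℤ) : ZMod 2)) (fun n _ => Finset.mem_coe.2 (Finset.mem_univ _))
  have h2 : ∀ t : Fin k → ZMod 2, M * #{n ∈ Bad | (fun e => ((n e : ℤ) : ZMod 2)) = t} ≤ 
      2 * ∏ e, #{x ∈ A e | ((x : ℤ) : ZMod 2) = t e} := by
    intro t
    have hsub : {n ∈ Bad | (fun e => ((n e : ℤ) : ZMod 2)) = t} ⊆ 
        {n ∈ Fintype.piFinset (fun e => {x ∈ A e | ((x : ℤ) : ZMod 2) = t e}) | 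
          QF (qt Γ t) n = (RT k a b - (-2) ^ Γ.verts * ZZ (BT Γ t) * KT Γ t) / (16 * 4 ^ Γ.verts)} := by
      intro n hn
      rw [Finset.mem_filter, hBad, Finset.mem_filter, Fintype.mem_piFinset] at hn
      obtain ⟨⟨hA, ha, hb⟩, ht⟩ := hn
      have ht' : ∀ e, ((n e : ℤ) : ZMod 2) = t e := fun e => congrFun ht e
      rw [Finset.mem_filter, Fintype.mem_piFinset]
      refine ⟨fun e => Finset.mem_filter.2 ⟨hA e, ht' e⟩, ?_⟩
      have h := keyT Γ hk n t ht'
      rw [ha, hb] at h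
      exact Int.eq_ediv_of_mul_eq_right (by positivity) h
    by_cases hz : ∃ e, #{x ∈ A e | ((x : ℤ) : ZMod 2) = t e} = 0
    · obtain ⟨e, he⟩ := hz
      have : {n ∈ Bad | (fun e => ((n e : ℤ) : ZMod 2)) = t} = ∅ := by
        rw [Finset.eq_empty_iff_forall_notMem]
        intro n hn
        have := (Fintype.mem_piFinset.1 (Finset.mem_filter.1 (hsub hn)).1) e
        rw [Finset.card_eq_zero] at he
        rw [he] at this
        exact absurd this (Finset.notMem_empty _)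
      rw [this]
      simp
    · push Not at hz
      refine le_trans (Nat.mul_le_mul_left _ (Finset.card_le_card hsub)) ?_
      exact count_quad (qt Γ t) (qt_symm Γ t) F (qt_ne Γ hv F hF t) _ _ M 
        (fun e he => (hM e he (t e)).resolve_left (hz e))
  rw [h1, Finset.mul_sum]
  refine (Finset.sum_le_sum fun t _ => h2 t).trans (le_of_eq ?_)
  rw [← Finset.mul_sum]
  congr 1
  have h3 : ∀ e, (A e).card = ∑ r : ZMod 2, #{x ∈ A e | ((x : ℤ) : ZMod 2) = r} := by
    intro e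
    exact Finset.card_eq_sum_card_fiberwise (fun x _ => Finset.mem_coe.2 (Finset.mem_univ _))
  rw [Finset.prod_congr rfl (fun e _ => h3 e), Finset.prod_univ_sum]
  rw [Fintype.piFinset_univ]

open Classical in
theorem count_dvdT (Γ : Ribbon k) (hk : 0 < k) (hv : Γ.verts < k + Γ.comps Finset.univ) 
    (F : Finset (Fin k)) (hF : Fᶜ.card + Γ.comps Fᶜ = Γ.verts) (f : ℤ[T;T⁻¹]) (M : ℕ)
    (A : Fin k → Finset ℤ) (hA : Balanced M F A) :
    M * #{n ∈ Fintype.piFinset A | ∃ D : Diagram (Ribbon.Pt n), Orients D (Γ.link n) ∧ 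
      (T 1 - 1 : ℤ[T;T⁻¹]) ^ 3 ∣ D.fPoly - f} ≤ 2 * ∏ e, (A e).card := by
  refine le_trans (Nat.mul_le_mul_left _ (Finset.card_le_card ?_)) 
    (count_kapT Γ hk hv F hF (kap f) (moment 0 f ^ 2) A M hA.zmod)
  intro n hn
  rw [Finset.mem_filter] at hn ⊢
  obtain ⟨hn, D, hD, h⟩ := hn
  have h1 := (same_of_dvd h).inv
  have h2 := fPoly_inv Γ hk n D hD
  exact ⟨hn, h2.1 ▸ h1.1, h2.2 ▸ h1.2⟩

open Classical in
theorem count_eqT (Γ : Ribbon k) (hk : 0 < k) (hv : Γ.verts < k + Γ.comps Finset.univ) 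
    (F : Finset (Fin k)) (hF : Fᶜ.card + Γ.comps Fᶜ = Γ.verts) (f : ℤ[T;T⁻¹]) (M : ℕ)
    (A : Fin k → Finset ℤ) (hA : Balanced M F A) :
    M * #{n ∈ Fintype.piFinset A | ∃ D : Diagram (Ribbon.Pt n), Orients D (Γ.link n) ∧ 
      D.fPoly = f} ≤ 2 * ∏ e, (A e).card := by
  refine le_trans (Nat.mul_le_mul_left _ (Finset.card_le_card ?_)) 
    (count_dvdT Γ hk hv F hF f M A hA)
  intro n hn
  rw [Finset.mem_filter] at hn ⊢
  obtain ⟨hn, D, hD, h⟩ := hn
  exact ⟨hn, D, hD, by rw [h, sub_self]; exact dvd_zero _⟩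

end Pool.Agent.H953R3.Q2
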